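import Pool.Agent.MP_6357da_an.H67.Model

/-! Monotonicity, self-similarity and critical points of the model Hamiltonian. -/

set_option autoImplicit false
open Filter Topology Set Metric MeasureTheory
open scoped NNReal

namespace Pool.Agent.MP_6357da_an.H67

variable {N m : ℕ} {σ η : ℝ}

lemma Tinv_hasFDerivAt (d : Fin N × Fin N) (z : Pl) :
    HasFDerivAt (Tinv σ d) (σ⁻¹ • ContinuousLinearMap.id ℝ Pl) z :=
  ((hasFDerivAt_id z).sub_const (PP σ d)).const_smul σ⁻¹

lemma comp_Tinv {F : Pl → ℝ} (d : Fin N × Fin N) {z : Pl}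
    (hF : DifferentiableAt ℝ F (Tinv σ d z)) :
    HasFDerivAt (fun y => F (Tinv σ d y)) (σ⁻¹ • fderiv ℝ F (Tinv σ d z)) z := by
  refine (hF.hasFDerivAt.comp z (Tinv_hasFDerivAt d z)).congr_fderiv ?_
  ext v; simp

lemma sum_chi_le (hσ : 0 < σ) (z : Pl) :
    ∑ d : Fin N × Fin N, chi (Tinv σ d z 0) * chi (Tinv σ d z 1) ≤ 1 := by
  have key : ∀ d : Fin N × Fin N, chi (Tinv σ d z 0) * chi (Tinv σ d z 1) ≠ 0 →
      Tinv σ d z ∈ Qw := fun d hd =>
    ⟨chi_ne (left_ne_zero_of_mul hd), chi_ne (right_ne_zero_of_mul hd)⟩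
  by_cases h : ∃ d : Fin N × Fin N, Tinv σ d z ∈ Qw
  · obtain ⟨d, hd⟩ := h
    rw [Finset.sum_eq_single d (fun d' _ hd' => ?_) (by simp)]
    · exact mul_le_one₀ (chi_le_one _) (chi_nonneg _) (chi_le_one _)
    · by_contra hc; exact hd' (d_uniq hσ (key _ hc) hd)
  · rw [Finset.sum_eq_zero]
    · norm_num
    · intro d _
      by_contra hc; exact h ⟨d, key _ hc⟩

lemma Good.bb_le (h : Good N m σ η) (i : Fin N) : bb σ i ≤ σ - 2 * σ ^ 2 := by
  have := h.fin_le i
  have h2 := h.hσ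
  unfold bb; nlinarith

lemma bb_nonneg (i : Fin N) : 0 ≤ bb σ i := by unfold bb; positivity

lemma Good.psi_deriv (h : Good N m σ η) (z : Pl) :
    -(1 - η / σ) ≤ fderiv ℝ (psi N σ η) z e1 := by
  have hσ := h.hσ
  have hη := h.η_le
  have hσ' := h.σ_le
  have a1 : HasFDerivAt (psi N σ η) (∑ d : Fin N × Fin N,
      σ⁻¹ • fderiv ℝ (theta (bb σ d.1) (σ - η)) (Tinv σ d z)) z :=
    HasFDerivAt.fun_sum fun d _ =>
      comp_Tinv d (((theta_contDiff 1 _ _).differentiable (by simp)) _)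
  rw [a1.fderiv, ContinuousLinearMap.sum_apply]
  have a2 : ∀ d : Fin N × Fin N, -((1 - η / σ) * (chi (Tinv σ d z 0) * chi (Tinv σ d z 1))) ≤
      (σ⁻¹ • fderiv ℝ (theta (bb σ d.1) (σ - η)) (Tinv σ d z)) e1 := fun d => by
    have := theta_deriv (bb_nonneg d.1) (c := σ - η) (by nlinarith [h.bb_le d.1]) (Tinv σ d z)
    rw [ContinuousLinearMap.smul_apply, smul_eq_mul]
    refine le_trans (le_of_eq ?_) (mul_le_mul_of_nonneg_left this (by positivity))
    field_simp
  refine le_trans ?_ (Finset.sum_le_sum fun d _ => a2 d)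
  rw [Finset.sum_neg_distrib, ← Finset.mul_sum, neg_le_neg_iff]
  refine mul_le_of_le_one_right ?_ (sum_chi_le hσ z)
  rw [sub_nonneg, div_le_one hσ]; nlinarith

lemma Good.kappa (h : Good N m σ η) : 0 < η / σ ∧ η / σ < 1 := by
  have hσ := h.hσ
  have hη := h.η_le
  have hσ' := h.σ_le
  exact ⟨div_pos h.hη hσ, by rw [div_lt_one hσ]; nlinarith⟩

lemma le_of_geom {a b κ B : ℝ} (h0 : 0 < κ) (h1 : κ < 1) (h : ∀ n : ℕ, a ≤ b + κ ^ n * B) :
    a ≤ b := by
  have := ((tendsto_pow_atTop_nhds_zero_of_lt_one h0.le h1).mul_const B).const_add b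
  rw [zero_mul, add_zero] at this
  exact ge_of_tendsto' this h

lemma Good.fix_deriv (h : Good N m σ η) {Ψ : Pl → ℝ} (hc : ContDiff ℝ 1 Ψ) (hS : Supp Ψ)
    (hf : ∀ z, Ψ z = psi N σ η z + RR N σ η Ψ z) (z : Pl) : -1 ≤ fderiv ℝ Ψ z e1 := by
  obtain ⟨B, hB⟩ : ∃ B, ∀ z, ‖fderiv ℝ Ψ z e1‖ ≤ B :=
    (hS.compact.fderiv_apply ℝ e1).exists_bound_of_continuous
      ((hc.continuous_fderiv (by simp)).clm_apply continuous_const)
  have hB0 : 0 ≤ B := (norm_nonneg _).trans (hB 0)
  obtain ⟨k0, k1⟩ := h.kappa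
  have hd := hc.differentiable (by simp)
  have key : ∀ (n : ℕ) z, -1 ≤ fderiv ℝ Ψ z e1 + (η / σ) ^ n * B := by
    intro n
    induction n with
    | zero => intro z; have := (abs_le.1 (hB z)).1; simp only [pow_zero, one_mul]; linarith
    | succ n ih =>
      intro z
      have a1 : fderiv ℝ Ψ z = fderiv ℝ (psi N σ η) z + fderiv ℝ (RR N σ η Ψ) z := by
        conv_lhs => rw [funext hf]
        exact fderiv_fun_add ((psi_contDiff 1).differentiable (by simp) z)
          ((RR_contDiff (n := 1) hc).differentiable (by simp) z)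
      have a2 := h.psi_deriv z
      have a3 : 0 ≤ (η / σ) ^ (n + 1) * B := by positivity
      rw [a1, ContinuousLinearMap.add_apply]
      rcases RR_local (N := N) (η := η) h.hσ hS z with h1 | ⟨d, h1⟩
      · rw [h1.fderiv_eq]
        simp only [fderiv_fun_const, Pi.zero_apply, ContinuousLinearMap.zero_apply]
        linarith
      · rw [h1.fderiv_eq, ((comp_Tinv d (hd _)).const_mul η).fderiv]
        have a4 := mul_le_mul_of_nonneg_left (ih (Tinv σ d z)) k0.le
        simp only [ContinuousLinearMap.smul_apply, smul_eq_mul]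
        rw [← mul_assoc, ← div_eq_mul_inv, pow_succ]
        linarith
  exact le_of_geom k0 k1 fun n => key n z

/-- The properties of the model Hamiltonian used for trapping. -/
structure IsModel (K : Pl → ℝ) : Prop where
  diff : Differentiable ℝ K
  mono : ∀ z, 0 ≤ fderiv ℝ K z e1
  out : ∀ z, z ∉ Qo → K z = z 1

/-- A critical point which is alone on its level in its vertical line. -/
structure IsGate (K : Pl → ℝ) (q : Pl) : Prop where
  mem : q ∈ Qo
  crit : fderiv ℝ K q = 0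
  val : K q ∈ Ioo (0 : ℝ) 1
  uniq : ∀ z, z 0 = q 0 → K z = K q → z = q

lemma IsModel.le {K : Pl → ℝ} (h : IsModel K) {z z' : Pl} (h0 : z 0 = z' 0) (h1 : z 1 ≤ z' 1) :
    K z ≤ K z' := by
  have a1 : ∀ t : ℝ, HasDerivAt (fun t : ℝ => K (z + t • e1)) (fderiv ℝ K (z + t • e1) e1) t := by
    intro t
    have b1 : HasDerivAt (fun t : ℝ => z + t • e1) e1 t := by
      simpa using ((hasDerivAt_id t).smul_const e1).const_add z
    exact (h.diff _).hasFDerivAt.comp_hasDerivAt t b1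
  have a2 := monotone_of_hasDerivAt_nonneg a1 (fun t => h.mono _) (sub_nonneg.2 h1)
  have a3 : z + (z' 1 - z 1) • e1 = z' := by
    ext i; fin_cases i <;> simp [e1, h0]
  simpa [a3] using a2

lemma proj1_hasFDerivAt (z : Pl) :
    HasFDerivAt (fun z : Pl => z 1) (EuclideanSpace.proj (𝕜 := ℝ) (1 : Fin 2)) z :=
  (EuclideanSpace.proj (𝕜 := ℝ) (1 : Fin 2) : Pl →L[ℝ] ℝ).hasFDerivAt

noncomputable def aa (σ : ℝ) (d : Fin N × Fin N) : ℝ := pp σ d.2 + bb σ d.1

lemma Good.aa_sep (h : Good N m σ η) {d d' : Fin N × Fin N} (hd : d ≠ d') :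
    2 * η ≤ |aa σ d - aa σ d'| := by
  have hσ := h.hσ
  have hη := h.η_le
  have hσ' := h.σ_le
  have key : ∀ d d' : Fin N × Fin N, d.2 < d'.2 ∨ (d.2 = d'.2 ∧ d.1 < d'.1) →
      2 * η ≤ aa σ d' - aa σ d := by
    rintro d d' (h1 | ⟨h1, h2⟩)
    · have b1 : ((d.2 : ℕ) : ℝ) + 1 ≤ (d'.2 : ℕ) := by exact_mod_cast h1
      have := h.bb_le d.1
      have := bb_nonneg (σ := σ) d'.1
      unfold aa pp; nlinarith
    · have b1 : ((d.1 : ℕ) : ℝ) + 1 ≤ (d'.1 : ℕ) := by exact_mod_cast h2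
      unfold aa bb; rw [h1]; nlinarith
  rcases lt_trichotomy d.2 d'.2 with h1 | h1 | h1
  · rw [abs_sub_comm]; exact (key _ _ (Or.inl h1)).trans (le_abs_self _)
  · rcases lt_trichotomy d.1 d'.1 with h2 | h2 | h2
    · rw [abs_sub_comm]; exact (key _ _ (Or.inr ⟨h1, h2⟩)).trans (le_abs_self _)
    · exact absurd (Prod.ext h2 h1) hd
    · exact (key _ _ (Or.inr ⟨h1.symm, h2⟩)).trans (le_abs_self _)
  · exact (key _ _ (Or.inl h1)).trans (le_abs_self _)

lemma Good.pp_mem (h : Good N m σ η) (j : Fin N) : pp σ j ∈ Icc (σ / 2) (1 - 3 / 2 * σ) := by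
  have := h.fin_le j
  have h2 := h.hσ
  have h3 : (0 : ℝ) ≤ (j : ℕ) := Nat.cast_nonneg _
  unfold pp
  constructor <;> nlinarith

theorem Good.model (h : Good N m σ η) : ∃ Ψ : Pl → ℝ, ContDiff ℝ (m + 1 : ℕ) Ψ ∧ Supp Ψ ∧
    IsModel (fun z => z 1 + Ψ z) ∧ ∃ q : (ℕ → Fin N × Fin N) → Pl,
      (∀ w, IsGate (fun z => z 1 + Ψ z) (q w)) ∧
      ∀ (w w' : ℕ → Fin N × Fin N) (n : ℕ), (∀ i < n, w i = w' i) → w n ≠ w' n →
        η * η ^ n ≤ |(q w 1 + Ψ (q w)) - (q w' 1 + Ψ (q w'))| := by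
  obtain ⟨Ψ, hc, hS, hf⟩ := h.exists_fix
  have hσ := h.hσ
  have hη0 := h.hη
  have hη := h.η_le
  have hσ' := h.σ_le
  obtain ⟨k0, k1⟩ := h.kappa
  have hc1 : ContDiff ℝ 1 Ψ := hc.of_le (by exact_mod_cast (by omega : 1 ≤ m + 1))
  have hd := hc1.differentiable (by simp)
  set K : Pl → ℝ := fun z => z 1 + Ψ z with hK
  have hKd : ∀ z, HasFDerivAt K (EuclideanSpace.proj (𝕜 := ℝ) (1 : Fin 2) + fderiv ℝ Ψ z) z :=
    fun z => (proj1_hasFDerivAt z).add (hd z).hasFDerivAt
  have hM : IsModel K := by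
    refine ⟨fun z => (hKd z).differentiableAt, fun z => ?_, fun z hz => ?_⟩
    · have := h.fix_deriv hc1 hS hf z
      rw [(hKd z).fderiv, ContinuousLinearMap.add_apply]
      have b : (EuclideanSpace.proj (𝕜 := ℝ) (1 : Fin 2) : Pl →L[ℝ] ℝ) e1 = 1 := by simp [e1]
      linarith
    · have : Ψ z = 0 := by by_contra h'; exact hz (hS z h')
      simp [hK, this]
  have hself : ∀ (d : Fin N × Fin N) z, Tinv σ d z ∈ Qc → K z = aa σ d + η * K (Tinv σ d z) := by
    intro d z hz
    have b1 := TT_one (σ := σ) d (Tinv σ d z)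
    rw [TT_Tinv hσ] at b1
    simp only [hK]
    rw [hf z, psi_eq hσ (Qc_sub hz), RR_eq hσ hS (Qc_sub hz), theta, chi_one hz.1, chi_one hz.2,
      b1, aa]
    ring
  have hpp : ∀ j : Fin N, pp σ j ∈ Icc 0 (1 - σ) := fun j =>
    ⟨by linarith [(h.pp_mem j).1], by linarith [(h.pp_mem j).2]⟩
  obtain ⟨X, hX, hXr⟩ := exists_rec (fun d : Fin N × Fin N => pp σ d.1) hσ.le (by linarith)
    fun d => hpp _
  obtain ⟨Y, hY, hYr⟩ := exists_rec (fun d : Fin N × Fin N => pp σ d.2) hσ.le (by linarith)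
    fun d => hpp _
  set q : (ℕ → Fin N × Fin N) → Pl := fun w => X w • e0 + Y w • e1 with hq
  have q0 : ∀ w, q w 0 = X w := fun w => by simp [hq, e0, e1]
  have q1 : ∀ w, q w 1 = Y w := fun w => by simp [hq, e0, e1]
  have hqc : ∀ w, q w ∈ Qc := fun w => ⟨q0 w ▸ hX w, q1 w ▸ hY w⟩
  have hqT : ∀ w, Tinv σ (w 0) (q w) = q (fun n => w (n + 1)) := fun w => by
    rw [← Tinv_TT hσ (w 0) (q fun n => w (n + 1))]
    congr 1
    ext i; fin_cases i
    · exact (q0 w).trans ((hXr w).trans (by rw [← q0]; exact (TT_zero _ _).symm))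
    · exact (q1 w).trans ((hYr w).trans (by rw [← q1]; exact (TT_one _ _).symm))
  have hqo : ∀ w, q w ∈ Qo := fun w => h.mem_Qo (d := w 0) (by rw [hqT]; exact Qc_sub (hqc _))
  have hrec : ∀ w, K (q w) = aa σ (w 0) + η * K (q fun n => w (n + 1)) := fun w => by
    rw [hself (w 0) (q w) (by rw [hqT]; exact hqc _), hqT]
  have hbot : ∀ z : Pl, z 1 ≤ 0 → K z = z 1 := fun z hz => hM.out z fun h' => by
    linarith [h'.2.1]
  have htop : ∀ z : Pl, 1 ≤ z 1 → K z = z 1 := fun z hz => hM.out z fun h' => by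
    linarith [h'.2.2]
  have h01 : ∀ w, K (q w) ∈ Icc (0 : ℝ) 1 := fun w => by
    constructor
    · have := hM.le (z := X w • e0) (z' := q w) (by simp [q0, e0]) (by simpa [q1, e0] using (hY w).1)
      rw [hbot (X w • e0) (by simp [e0])] at this
      simpa [e0] using this
    · have := hM.le (z := q w) (z' := X w • e0 + e1) (by simp [q0, e0, e1])
        (by simpa [q1, e0, e1] using (hY w).2)
      rw [htop (X w • e0 + e1) (by simp [e0, e1])] at this
      simpa [e0, e1] using this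
  have hval : ∀ w, K (q w) ∈ Ioo (0 : ℝ) 1 := fun w => by
    have b1 := h01 fun n => w (n + 1)
    have b2 := h.pp_mem (w 0).2
    have b3 := h.bb_le (w 0).1
    have b4 := bb_nonneg (σ := σ) (w 0).1
    rw [hrec, aa]
    constructor <;> nlinarith [b1.1, b1.2, b2.1, b2.2]
  refine ⟨Ψ, hc, hS, hM, q, fun w => ⟨hqo w, ?_, hval w, fun z hz0 hz1 => ?_⟩, fun w w' n h1 h2 =>
    sep_of_rec (F := fun w => K (q w)) (α := aa σ) hη0.le h01 hrec n w w'
      (fun i hi => by rw [h1 i hi]) (h.aa_sep h2)⟩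
  · obtain ⟨B, hB⟩ := isCompact_Qc.exists_bound_of_continuousOn (f := fderiv ℝ K)
      (((by fun_prop : ContDiff ℝ 1 fun z : Pl => z 1).add hc1).continuous_fderiv
        (by simp)).continuousOn
    have key : ∀ (n : ℕ) w, ‖fderiv ℝ K (q w)‖ ≤ 0 + (η / σ) ^ n * B := by
      intro n
      induction n with
      | zero => intro w; simpa using hB _ (hqc w)
      | succ n ih =>
        intro w
        have b1 : K =ᶠ[𝓝 (q w)] fun z => aa σ (w 0) + η * K (Tinv σ (w 0) z) := by
          filter_upwards [(isOpen_Qo.preimage (Tinv_contDiff (σ := σ) 0 (w 0)).continuous).mem_nhds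
            (by rw [mem_preimage, hqT]; exact hqo _)] with z hz using hself _ _ (Qo_sub hz)
        rw [b1.fderiv_eq, (((comp_Tinv (w 0) (hM.diff _)).const_mul η).const_add _).fderiv,
          smul_smul, norm_smul, ← div_eq_mul_inv, Real.norm_eq_abs, abs_of_pos k0, hqT]
        have := mul_le_mul_of_nonneg_left (ih fun n => w (n + 1)) k0.le
        rw [pow_succ]; linarith
    exact norm_le_zero_iff.1 (le_of_geom k0 k1 fun n => key n w)
  · have key : ∀ (n : ℕ) w (z : Pl), z 0 = q w 0 → K z = K (q w) →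
        |z 1 - q w 1| ≤ 0 + σ ^ n * 1 := by
      intro n
      induction n with
      | zero =>
        intro w z _ b2
        have b3 := hval w
        have b4 := (hqc w).2
        have b5 : 0 < z 1 := by
          by_contra hh; rw [hbot z (not_lt.1 hh)] at b2; linarith [b3.1]
        have b6 : z 1 < 1 := by
          by_contra hh; rw [htop z (not_lt.1 hh)] at b2; linarith [b3.2]
        rw [abs_le]; constructor <;> simp only [pow_zero] <;> linarith [b4.1, b4.2]
      | succ n ih =>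
        intro w z b1 b2
        set w' : ℕ → Fin N × Fin N := fun n => w (n + 1) with hw'
        have b3 := hval w'
        have t0 : Tinv σ (w 0) z 0 = q w' 0 := by
          rw [← hqT, Tinv_zero hσ, Tinv_zero hσ, b1]
        have z0 : z 0 = pp σ (w 0).1 + σ * X w' := by rw [b1, q0, hXr]
        have z1 := TT_one (σ := σ) (w 0) (Tinv σ (w 0) z)
        rw [TT_Tinv hσ] at z1
        have lo : 0 ≤ Tinv σ (w 0) z 1 := by
          by_contra hh
          have c1 := hM.le (z := z) (z' := TT σ (w 0) (X w' • e0))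
            (by rw [TT_zero, z0]; simp [e0]) (by rw [TT_one, z1]; simp [e0]; nlinarith)
          rw [hself (w 0) (TT σ (w 0) _) (by
            rw [Tinv_TT hσ]; exact ⟨by simpa [e0] using hX w', by simp [e0]⟩), Tinv_TT hσ,
            hbot (X w' • e0) (by simp [e0]), b2, hrec] at c1
          have : (X w' • e0) 1 = 0 := by simp [e0]
          rw [this] at c1
          nlinarith [b3.1]
        have hi : Tinv σ (w 0) z 1 ≤ 1 := by
          by_contra hh
          have c1 := hM.le (z' := z) (z := TT σ (w 0) (X w' • e0 + e1))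
            (by rw [TT_zero, z0]; simp [e0, e1]) (by rw [TT_one, z1]; simp [e0, e1]; nlinarith)
          rw [hself (w 0) (TT σ (w 0) _) (by
            rw [Tinv_TT hσ]; exact ⟨by simpa [e0, e1] using hX w', by simp [e0, e1]⟩), Tinv_TT hσ,
            htop (X w' • e0 + e1) (by simp [e0, e1]), b2, hrec] at c1
          have : (X w' • e0 + e1) 1 = 1 := by simp [e0, e1]
          rw [this] at c1
          nlinarith [b3.2]
        have c2 := hself (w 0) z ⟨t0 ▸ (hqc w').1, lo, hi⟩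
        rw [b2, hrec] at c2
        have c3 := ih w' _ t0 (mul_left_cancel₀ hη0.ne' (add_left_cancel c2)).symm
        have c4 : z 1 - q w 1 = σ * (Tinv σ (w 0) z 1 - q w' 1) := by
          rw [q1, q1, hYr w]; linarith
        rw [c4, abs_mul, abs_of_pos hσ, pow_succ]
        nlinarith
    have := abs_nonpos_iff.1 (le_of_geom hσ (by linarith) fun n => key n w z hz0 hz1)
    ext i; fin_cases i
    · exact hz0
    · exact sub_eq_zero.1 this

end Pool.Agent.MP_6357da_an.H67
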