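import Mathlib

/-! A lower bound for the Hausdorff dimension of a well separated Cantor scheme. -/

set_option autoImplicit false
open Filter Topology Set Metric MeasureTheory
open scoped NNReal ENNReal

namespace Pool.Agent.MP_6357da_an.H67

theorem le_dimH_range {X D : Type*} [MetricSpace X] [Fintype D] (hD : 1 < Fintype.card D)
    (P : (ℕ → D) → X) {η δ : ℝ} (hη : 0 < η) (hδ : 0 < δ)
    (hP : ∀ (w w' : ℕ → D) (n : ℕ), (∀ i < n, w i = w' i) → w n ≠ w' n →
      δ * η ^ n ≤ dist (P w) (P w'))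
    {r : ℝ≥0} (hr : 0 < r) (hL : 1 ≤ (Fintype.card D : ℝ) * η ^ (r : ℝ)) :
    (r : ℝ≥0∞) ≤ dimH (range P) := by
  classical
  have : Nonempty D := Fintype.card_pos_iff.1 (by omega)
  set e := Fintype.equivFin D with he
  set f : X → ℝ := fun x => Real.ofDigits (fun n => e (Function.invFun P x n)) with hf
  have hsep : ∀ w w' : ℕ → D, w ≠ w' → ∃ n, (∀ i < n, w i = w' i) ∧ w n ≠ w' n := by
    intro w w' h
    have h1 : ∃ n, w n ≠ w' n := Function.ne_iff.1 h
    exact ⟨Nat.find h1, fun i hi => not_not.1 (Nat.find_min h1 hi), Nat.find_spec h1⟩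
  have hinj : Function.Injective P := by
    intro w w' h
    by_contra hne
    obtain ⟨n, h1, h2⟩ := hsep w w' hne
    have := hP w w' n h1 h2
    rw [h, dist_self] at this
    have : 0 < δ * η ^ n := by positivity
    linarith
  have hfP : ∀ w, f (P w) = Real.ofDigits (fun n => e (w n)) := fun w => by
    simp only [hf, Function.leftInverse_invFun hinj w]
  have hL0 : (0 : ℝ) < Fintype.card D := by exact_mod_cast (by omega : 0 < Fintype.card D)
  have hH : HolderOnWith (Real.toNNReal (δ⁻¹ ^ (r : ℝ))) r f (range P) := by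
    rintro _ ⟨w, rfl⟩ _ ⟨w', rfl⟩
    rcases eq_or_ne w w' with rfl | hne
    · simp
    obtain ⟨n, h1, h2⟩ := hsep w w' hne
    have a1 := hP w w' n h1 h2
    have a2 : dist (f (P w)) (f (P w')) ≤ ((Fintype.card D : ℝ) ^ n)⁻¹ := by
      rw [hfP, hfP, Real.dist_eq]
      exact Real.abs_ofDigits_sub_ofDigits_le fun i hi => by rw [h1 i hi]
    have a3 : ((Fintype.card D : ℝ) ^ n)⁻¹ ≤ (η ^ n) ^ (r : ℝ) := by
      rw [← Real.rpow_natCast η, ← Real.rpow_mul hη.le, mul_comm, Real.rpow_mul hη.le,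
        Real.rpow_natCast, ← inv_pow]
      gcongr
      rwa [inv_le_iff_one_le_mul₀' hL0]
    have a4 : (η ^ n) ^ (r : ℝ) ≤ δ⁻¹ ^ (r : ℝ) * dist (P w) (P w') ^ (r : ℝ) := by
      rw [← Real.mul_rpow (by positivity) dist_nonneg]
      gcongr
      rwa [le_inv_mul_iff₀ hδ]
    rw [edist_dist, edist_dist, ENNReal.ofReal_rpow_of_nonneg dist_nonneg (NNReal.coe_nonneg r)]
    refine (ENNReal.ofReal_le_ofReal (a2.trans (a3.trans a4))).trans (le_of_eq ?_)
    rw [ENNReal.ofReal_mul (by positivity)]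
    rfl
  have h1 := hH.dimH_image_le hr
  have h2 : Icc (0 : ℝ) 1 ⊆ f '' range P := by
    intro y hy
    obtain ⟨u, -, rfl⟩ := Real.ofDigits_SurjOn hD hy
    exact ⟨_, ⟨fun n => e.symm (u n), rfl⟩, by simp [hfP]⟩
  have h3 : dimH (Icc (0 : ℝ) 1) = 1 := by
    rw [Real.dimH_of_nonempty_interior (by simp)]; simp
  have h4 := (h3 ▸ dimH_mono h2).trans h1
  rwa [ENNReal.le_div_iff_mul_le (Or.inl (by exact_mod_cast hr.ne')) (Or.inl ENNReal.coe_ne_top),
    one_mul] at h4

/-- Separation for a self-similar coding with values in the unit interval. -/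
lemma sep_of_rec {D : Type*} {F : (ℕ → D) → ℝ} {α : D → ℝ} {η : ℝ} (hη : 0 ≤ η)
    (h01 : ∀ w, F w ∈ Icc (0 : ℝ) 1) (hrec : ∀ w, F w = α (w 0) + η * F (fun n => w (n + 1)))
    (n : ℕ) : ∀ w w' : ℕ → D, (∀ i < n, α (w i) = α (w' i)) → 2 * η ≤ |α (w n) - α (w' n)| →
      η * η ^ n ≤ |F w - F w'| := by
  induction n with
  | zero =>
    intro w w' _ h
    rw [hrec w, hrec w']
    have a1 := h01 (fun n => w (n + 1))
    have a2 := h01 (fun n => w' (n + 1))
    have a3 : |η * F (fun n => w (n + 1)) - η * F (fun n => w' (n + 1))| ≤ η := by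
      rw [← mul_sub, abs_mul, abs_of_nonneg hη]
      refine mul_le_of_le_one_right hη (abs_le.2 ⟨?_, ?_⟩) <;> linarith [a1.1, a1.2, a2.1, a2.2]
    have a4 := abs_sub (α (w 0) + η * F (fun n => w (n + 1)) - (α (w' 0) +
      η * F (fun n => w' (n + 1)))) (η * F (fun n => w (n + 1)) - η * F (fun n => w' (n + 1)))
    rw [show α (w 0) + η * F (fun n => w (n + 1)) - (α (w' 0) + η * F (fun n => w' (n + 1))) -
      (η * F (fun n => w (n + 1)) - η * F (fun n => w' (n + 1))) = α (w 0) - α (w' 0) by ring] at a4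
    simp only [pow_zero, mul_one]
    linarith
  | succ n ih =>
    intro w w' h1 h2
    have := ih (fun n => w (n + 1)) (fun n => w' (n + 1)) (fun i hi => h1 (i + 1) (by omega)) h2
    rw [hrec w, hrec w', h1 0 (by omega), add_sub_add_left_eq_sub, ← mul_sub, abs_mul,
      abs_of_nonneg hη, pow_succ', mul_left_comm]
    gcongr

/-- The self-similar coding by a geometric series. -/
lemma exists_rec {D : Type*} (α : D → ℝ) {η : ℝ} (hη : 0 ≤ η) (hη1 : η < 1)
    (hα : ∀ d, α d ∈ Icc 0 (1 - η)) : ∃ F : (ℕ → D) → ℝ, (∀ w, F w ∈ Icc (0 : ℝ) 1) ∧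
      ∀ w, F w = α (w 0) + η * F (fun n => w (n + 1)) := by
  have hg := (hasSum_geometric_of_lt_one hη hη1).mul_right (1 - η)
  rw [inv_mul_cancel₀ (by linarith)] at hg
  have hle : ∀ (w : ℕ → D) n, η ^ n * α (w n) ≤ η ^ n * (1 - η) := fun w n => by
    gcongr; exact (hα _).2
  have hnn : ∀ (w : ℕ → D) n, 0 ≤ η ^ n * α (w n) := fun w n =>
    mul_nonneg (by positivity) (hα _).1
  have hs : ∀ w : ℕ → D, Summable fun n => η ^ n * α (w n) := fun w =>
    Summable.of_nonneg_of_le (hnn w) (hle w) hg.summable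
  refine ⟨fun w => ∑' n, η ^ n * α (w n), fun w => ⟨tsum_nonneg (hnn w), ?_⟩, fun w => ?_⟩
  · exact hasSum_le (hle w) (hs w).hasSum hg
  · simp only
    rw [(hs w).tsum_eq_zero_add, ← tsum_mul_left]
    simp only [pow_zero, one_mul, pow_succ', mul_assoc]

end Pool.Agent.MP_6357da_an.H67
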