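import Pool.Agent.MP_6357da_an.H67.Smooth
import Pool.Agent.MP_6357da_an.H27.Defs

/-! The area preserving flow of a planar Hamiltonian with bounded derivatives. -/

set_option autoImplicit false
open Filter Topology Set Metric MeasureTheory
open scoped NNReal

namespace Pool.Agent.MP_6357da_an.H67

open H27

abbrev Pl := EuclideanSpace ℝ (Fin 2)

noncomputable def e0 : Pl := EuclideanSpace.single 0 1
noncomputable def e1 : Pl := EuclideanSpace.single 1 1

lemma decomp (u : Pl) : u = u 0 • e0 + u 1 • e1 := by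
  ext i; fin_cases i <;> simp [e0, e1]

noncomputable def JJ : (Pl →L[ℝ] ℝ) →L[ℝ] Pl :=
  (ContinuousLinearMap.apply ℝ ℝ e1).smulRight e0 - (ContinuousLinearMap.apply ℝ ℝ e0).smulRight e1

lemma JJ_zero (l : Pl →L[ℝ] ℝ) : JJ l 0 = l e1 := by simp [JJ, e0, e1]

lemma JJ_one (l : Pl →L[ℝ] ℝ) : JJ l 1 = -l e0 := by simp [JJ, e0, e1]

lemma apply_JJ (l : Pl →L[ℝ] ℝ) : l (JJ l) = 0 := by
  rw [decomp (JJ l), JJ_zero, JJ_one]; simp; ring

lemma det_eq (M : Pl →L[ℝ] Pl) : M.det = M e0 0 * M e1 1 - M e1 0 * M e0 1 := by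
  rw [ContinuousLinearMap.det, ← LinearMap.det_toMatrix (EuclideanSpace.basisFun (Fin 2) ℝ).toBasis,
    Matrix.det_fin_two]
  simp [LinearMap.toMatrix_apply, e0, e1]

theorem ham_flow (m : ℕ) (hm : 1 ≤ m) (H : Pl → ℝ) (hH : ContDiff ℝ (m + 1 : ℕ) H) (C : ℝ)
    (h1 : ∀ x, ‖fderiv ℝ H x‖ ≤ C) (h2 : ∀ x, ‖fderiv ℝ (fderiv ℝ H) x‖ ≤ C) :
    ∃ g, IsFlow m g ∧ (∀ x t, HasDerivAt (fun s => g s x) (JJ (fderiv ℝ H (g t x))) t) ∧
      ∀ (α : ℝ → Pl) (a b : ℝ), a < 0 → 0 < b →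
        (∀ t ∈ Ioo a b, HasDerivAt α (JJ (fderiv ℝ H (α t))) t) →
          ∀ t ∈ Ioo a b, g t (α 0) = α t := by
  have hC : 0 ≤ C := (norm_nonneg _).trans (h1 0)
  have hD : ContDiff ℝ m (fderiv ℝ H) := hH.fderiv_right (by push_cast; exact le_rfl)
  have hm0 : (m : WithTop ℕ∞) ≠ 0 := by exact_mod_cast (by omega : m ≠ 0)
  have hm1 : (1 : WithTop ℕ∞) ≤ m := by exact_mod_cast hm
  set v : Pl → Pl := fun x => JJ (fderiv ℝ H x) with hv
  have hvc : ContDiff ℝ m v := JJ.contDiff.comp hD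
  have hL : LipschitzWith ⟨C, hC⟩ (fderiv ℝ H) :=
    lipschitzWith_of_nnnorm_fderiv_le (hD.differentiable hm0) (fun x => h2 x)
  have hK : LipschitzWith (‖JJ‖₊ * ⟨C, hC⟩) v := JJ.lipschitz.comp hL
  have hb : ∀ x, ‖v x‖ ≤ ((‖JJ‖₊ * ⟨C, hC⟩ : ℝ≥0) : ℝ) := fun x =>
    JJ.le_of_opNorm_le_of_le le_rfl (h1 x)
  choose α h0 hα using exists_solution hK hb
  set g : ℝ → Pl → Pl := fun t x => α x t with hg
  have hsm : ContDiff ℝ m (fun p : ℝ × Pl => g p.1 p.2) := contDiff_flow hm hvc hK h0 hα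
  have hadd : ∀ t s x, g (t + s) x = g t (g s x) := flow_add hK h0 hα
  have hgd : ∀ t, Differentiable ℝ (g t) := fun t =>
    (hsm.differentiable hm0).comp (by fun_prop : Differentiable ℝ fun x : Pl => (t, x))
  have hdet : ∀ t x, (fderiv ℝ (g t) x).det = 1 := by
    intro t x
    have hM := variational (g := g) (hvc.of_le hm1) hK h0 hα x
    have hc : ∀ (u : Pl) (i : Fin 2) (s : ℝ), HasDerivAt (fun s => fderiv ℝ (g s) x u i)
        (fderiv ℝ v (g s x) (fderiv ℝ (g s) x u) i) s := fun u i s =>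
      ((EuclideanSpace.proj (𝕜 := ℝ) i).comp
        (ContinuousLinearMap.apply ℝ Pl u)).hasFDerivAt.comp_hasDerivAt s (hM s)
    have hA : ∀ y u, fderiv ℝ v y u = JJ (fderiv ℝ (fderiv ℝ H) y u) := fun y u => by
      have := (JJ.hasFDerivAt.comp y ((hD.differentiable hm0) y).hasFDerivAt).fderiv
      rw [show v = JJ ∘ fderiv ℝ H from rfl, this]; rfl
    have hder : ∀ s, HasDerivAt (fun s => (fderiv ℝ (g s) x).det) 0 s := by
      intro s
      simp only [det_eq]
      refine HasDerivAt.congr_deriv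
        (((hc e0 0 s).mul (hc e1 1 s)).sub ((hc e1 0 s).mul (hc e0 1 s))) ?_
      have hsym : IsSymmSndFDerivAt ℝ H (g s x) := hH.contDiffAt.isSymmSndFDerivAt (by
        rw [minSmoothness_of_isRCLikeNormedField]; exact_mod_cast (by omega : 2 ≤ m + 1))
      have hs := hsym e0 e1
      simp only [hA, JJ_zero, JJ_one]
      generalize fderiv ℝ (g s) x e0 = a
      generalize fderiv ℝ (g s) x e1 = b
      rw [decomp a, decomp b]
      simp only [map_add, map_smul, ContinuousLinearMap.add_apply, ContinuousLinearMap.smul_apply,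
        smul_eq_mul, hs]
      simp [e0, e1]
      ring
    have := is_const_of_deriv_eq_zero (fun s => (hder s).differentiableAt)
      (fun s => (hder s).deriv) t 0
    rw [this, show g 0 = id from funext h0, fderiv_id]
    simp [det_eq, e0, e1]
  have hinv : ∀ t x, g (-t) (g t x) = x := fun t x => by rw [← hadd, neg_add_cancel]; exact h0 x
  refine ⟨g, ⟨funext h0, fun t s => funext (hadd t s), fun t => ?_, hsm⟩, hα, ?_⟩
  · refine ⟨(hgd t).continuous.measurable, ?_⟩
    ext s hs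
    rw [Measure.map_apply (hgd t).continuous.measurable hs]
    have e : g t ⁻¹' s = g (-t) '' s := by
      ext x
      refine ⟨fun hx => ⟨_, hx, hinv t x⟩, ?_⟩
      rintro ⟨y, hy, rfl⟩
      have := hinv (-t) y
      rw [neg_neg] at this
      rwa [mem_preimage, this]
    rw [e, ← lintegral_abs_det_fderiv_eq_addHaar_image volume hs
      (fun x _ => (hgd (-t) x).hasFDerivAt.hasFDerivWithinAt)
      (Function.LeftInverse.injective (g := g (- -t)) (hinv (-t))).injOn]
    simp [hdet]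
  · intro β a b ha hb' hβ
    exact ODE_solution_unique_of_mem_Ioo (v := fun _ => v) (s := fun _ => univ)
      (a := a) (b := b) (t₀ := 0) (f := fun t => g t (β 0)) (g := β)
      (fun _ _ => hK.lipschitzOnWith) ⟨ha, hb'⟩
      (fun t _ => ⟨hα _ t, trivial⟩) (fun t ht => ⟨hβ t ht, trivial⟩) (h0 _)

end Pool.Agent.MP_6357da_an.H67
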