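import Pool.Agent.MP_6357da_an.H67.Crit

/-! Trapping, stacking of the models, and the lower bound for flows. -/

set_option autoImplicit false
open Filter Topology Set Metric MeasureTheory
open scoped NNReal ENNReal

namespace Pool.Agent.MP_6357da_an.H67

open H27

lemma proj0_hasFDerivAt (z : Pl) :
    HasFDerivAt (fun z : Pl => z 0) (EuclideanSpace.proj (𝕜 := ℝ) (0 : Fin 2)) z :=
  (EuclideanSpace.proj (𝕜 := ℝ) (0 : Fin 2) : Pl →L[ℝ] ℝ).hasFDerivAt

theorem trap {H : Pl → ℝ} (hH : Differentiable ℝ H) {g : ℝ → Pl → Pl} (h0 : g 0 = id)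
    (hadd : ∀ t s, g (t + s) = g t ∘ g s)
    (hd : ∀ x t, HasDerivAt (fun s => g s x) (JJ (fderiv ℝ H (g t x))) t)
    (hu : ∀ (α : ℝ → Pl) (a b : ℝ), a < 0 → 0 < b →
      (∀ t ∈ Ioo a b, HasDerivAt α (JJ (fderiv ℝ H (α t))) t) → ∀ t ∈ Ioo a b, g t (α 0) = α t)
    {A μ : ℝ} (hμ : 0 < μ) {K : Pl → ℝ} (hM : IsModel K)
    (hK : ∀ z : Pl, z 1 ∈ Icc A (A + 1) → H z = μ * K (z - A • e1))
    {q : Pl} (hq : IsGate K q) {x : ℝ} (hx : x < 0) :
    x • e0 + (A + K q) • e1 ∈ trapped g := by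
  set z0 : Pl := x • e0 + (A + K q) • e1 with hz0
  have z00 : z0 0 = x := by simp [hz0, e0, e1]
  have z01 : z0 1 = A + K q := by simp [hz0, e0, e1]
  have s0 : ∀ z : Pl, (z - A • e1) 0 = z 0 := fun z => by simp [e1]
  have s1 : ∀ z : Pl, (z - A • e1) 1 = z 1 - A := fun z => by simp [e1]
  set γ : ℝ → Pl := fun t => g t z0 with hγ
  have γ0 : γ 0 = z0 := by simp [hγ, h0]
  have hv := hq.val
  have hcons : ∀ t, H (γ t) = μ * K q := by
    intro t
    have a1 : ∀ s, HasDerivAt (fun s => H (γ s)) 0 s := fun s =>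
      ((hH _).hasFDerivAt.comp_hasDerivAt s (hd z0 s)).congr_deriv (apply_JJ _)
    rw [is_const_of_deriv_eq_zero (fun s => (a1 s).differentiableAt) (fun s => (a1 s).deriv) t 0,
      γ0, hK z0 (by rw [z01]; constructor <;> linarith [hv.1, hv.2]),
      hM.out _ (fun h => by have := h.1.1; rw [s0, z00] at this; linarith), s1, z01]
    ring
  have hγc : Continuous γ := continuous_iff_continuousAt.2 fun t => (hd z0 t).continuousAt
  have hstrip : ∀ t, γ t 1 ∈ Ioo A (A + 1) := by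
    intro t
    constructor
    · by_contra hh
      obtain ⟨s, hs⟩ := intermediate_value_univ t 0 (cont1.comp hγc) (show A ∈ _ from
        ⟨not_lt.1 hh, by simp only [Function.comp, γ0, z01]; linarith [hv.1]⟩)
      have hs' : γ s 1 = A := hs
      have := hcons s
      rw [hK _ (by rw [hs']; constructor <;> linarith),
        hM.out _ (fun h => by have := h.2.1; rw [s1, hs'] at this; linarith), s1, hs'] at this
      nlinarith [hv.1]
    · by_contra hh
      obtain ⟨s, hs⟩ := intermediate_value_univ 0 t (cont1.comp hγc) (show A + 1 ∈ _ from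
        ⟨by simp only [Function.comp, γ0, z01]; linarith [hv.2], not_lt.1 hh⟩)
      have hs' : γ s 1 = A + 1 := hs
      have := hcons s
      rw [hK _ (by rw [hs']; constructor <;> linarith),
        hM.out _ (fun h => by have := h.2.2; rw [s1, hs'] at this; linarith), s1, hs'] at this
      nlinarith [hv.2]
  have hfd : ∀ z : Pl, z 1 ∈ Ioo A (A + 1) → fderiv ℝ H z = μ • fderiv ℝ K (z - A • e1) := by
    intro z hz
    have a1 : H =ᶠ[𝓝 z] fun y => μ * K (y - A • e1) := by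
      filter_upwards [(isOpen_Ioo.preimage cont1).mem_nhds hz] with y hy
        using hK y (Ioo_subset_Icc_self hy)
    rw [a1.fderiv_eq]
    have a2 := ((hM.diff (z - A • e1)).hasFDerivAt.comp z
      ((hasFDerivAt_id z).sub_const (A • e1))).const_mul μ
    simpa using a2.fderiv
  have hx' : ∀ t, HasDerivAt (fun s => γ s 0) (μ * fderiv ℝ K (γ t - A • e1) e1) t := fun t =>
    ((proj0_hasFDerivAt _).comp_hasDerivAt t (hd z0 t)).congr_deriv (by
      have := JJ_zero (fderiv ℝ H (γ t))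
      rw [hfd _ (hstrip t)] at this ⊢
      simpa using this)
  have hmono : Monotone fun s => γ s 0 :=
    monotone_of_hasDerivAt_nonneg hx' fun t => mul_nonneg hμ.le (hM.mono _)
  have hlt : ∀ t, γ t 0 < q 0 := by
    intro t
    by_contra hh
    obtain ⟨s, hs⟩ := intermediate_value_univ 0 t (cont0.comp hγc) (show q 0 ∈ _ from
      ⟨by simp only [Function.comp, γ0, z00]; linarith [hq.mem.1.1], not_lt.1 hh⟩)
    have hs' : γ s 0 = q 0 := hs
    have a1 := hcons s
    rw [hK _ (Ioo_subset_Icc_self (hstrip s))] at a1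
    have a2 := hq.uniq _ ((s0 _).trans hs') (mul_left_cancel₀ hμ.ne' a1)
    have a3 := hu (fun _ => γ s) (-(|s| + 1)) (|s| + 1) (by linarith [abs_nonneg s])
      (by positivity) (fun t _ => by
        rw [hfd _ (hstrip s), a2, hq.crit, smul_zero, map_zero]; exact hasDerivAt_const _ _)
      (-s) ⟨by linarith [le_abs_self s], by linarith [neg_abs_le s]⟩
    have a4 : g (-s) (γ s) = z0 := by
      have := congrFun (hadd (-s) s) z0
      rw [neg_add_cancel, h0] at this
      exact this.symm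
    have a5 : γ s = z0 := a3.symm.trans a4
    rw [a5, z00] at hs'
    linarith [hq.mem.1.1]
  constructor
  · refine (isBounded_closedBall (x := (0 : Pl)) (r := |x| + 1 + (|A| + 1))).subset ?_
    rintro _ ⟨t, ht, rfl⟩
    rw [mem_closedBall_zero_iff]
    refine (norm_le_add (γ t)).trans (add_le_add (abs_le.2 ⟨?_, ?_⟩) (abs_le.2 ⟨?_, ?_⟩))
    · have := hmono ht
      simp only [γ0, z00] at this
      linarith [neg_abs_le x]
    · linarith [hlt t, hq.mem.1.2, abs_nonneg x]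
    · linarith [(hstrip t).1, neg_abs_le A]
    · linarith [(hstrip t).2, le_abs_self A]
  · intro hb
    obtain ⟨R, hR⟩ := hb.exists_norm_le
    have a1 := (convex_Iic (0 : ℝ)).mul_sub_le_image_sub_of_le_deriv (f := fun s => γ s 0) (C := μ)
      (cont0.comp hγc).continuousOn (fun t _ => (hx' t).differentiableAt.differentiableWithinAt)
      (fun t ht => by
        rw [(hx' t).deriv]
        have b1 := hmono (mem_Iic.1 (interior_subset ht))
        simp only [γ0, z00] at b1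
        have b2 : K =ᶠ[𝓝 (γ t - A • e1)] fun z => z 1 := by
          filter_upwards [(isOpen_Iio.preimage cont0).mem_nhds
            (show (γ t - A • e1) 0 < 0 by rw [s0]; linarith)] with y hy
          exact hM.out y fun h => lt_asymm h.1.1 hy
        rw [b2.fderiv_eq, (proj1_hasFDerivAt _).fderiv]
        simp [e1])
    have hR0 : 0 ≤ R := (norm_nonneg _).trans (hR _ ⟨0, le_rfl, rfl⟩)
    have ht : -(R / μ) ≤ 0 := neg_nonpos.2 (by positivity)
    have a2 := a1 _ ht 0 (mem_Iic.2 le_rfl) ht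
    have a3 := (PiLp.norm_apply_le (γ (-(R / μ))) 0).trans (hR _ ⟨_, ht, rfl⟩)
    simp only [γ0, z00, zero_sub, neg_neg] at a2
    rw [mul_div_cancel₀ _ hμ.ne'] at a2
    linarith [(abs_le.1 a3).1]

theorem stack (n : ℕ) (F : ℕ → Pl → ℝ) (hF : ∀ k, ContDiff ℝ n (F k))
    (hB : ∀ k, ∀ j ≤ n, ∃ B, ∀ z, ‖iteratedFDeriv ℝ j (F k) z‖ ≤ B) :
    ∃ μ : ℕ → ℝ, (∀ k, 0 < μ k) ∧ ContDiff ℝ n (fun z => ∑' k, μ k * F k z) ∧
      ∀ j ≤ n, ∀ z, ‖iteratedFDeriv ℝ j (fun z => ∑' k, μ k * F k z) z‖ ≤ 2 := by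
  have h1 : ∀ k, ∃ B, 0 < B ∧ ∀ j ≤ n, ∀ z, ‖iteratedFDeriv ℝ j (F k) z‖ ≤ B := by
    intro k
    choose! B hB using hB k
    refine ⟨1 + ∑ j ∈ Finset.range (n + 1), |B j|, by positivity, fun j hj z => ?_⟩
    have := Finset.single_le_sum (f := fun j => |B j|) (fun _ _ => abs_nonneg _)
      (Finset.mem_range.2 (Nat.lt_succ_of_le hj))
    linarith [hB j hj z, le_abs_self (B j)]
  choose B hB0 hB using h1
  have h2 : ∀ (j k : ℕ) (z : Pl), (j : ℕ∞) ≤ (n : ℕ∞) →
      ‖iteratedFDeriv ℝ j (fun z => (1 / 2) ^ k / B k * F k z) z‖ ≤ (1 / 2) ^ k := by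
    intro j k z hj
    have hj' : j ≤ n := by exact_mod_cast hj
    have a1 := iteratedFDeriv_const_smul_apply' (a := (1 / 2 : ℝ) ^ k / B k) (i := j) (x := z)
      ((hF k).of_le (by exact_mod_cast hj')).contDiffAt
    have := hB0 k
    refine le_trans (le_of_eq (congrArg norm a1)) ?_
    rw [norm_smul, Real.norm_eq_abs, abs_of_pos (by positivity)]
    calc _ ≤ (1 / 2) ^ k / B k * B k := by gcongr; exact hB k j hj' z
      _ = _ := by field_simp
  have h3 : ∀ k, ContDiff ℝ (n : ℕ∞) (fun z => (1 / 2) ^ k / B k * F k z) := fun k =>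
    contDiff_const.mul (hF k)
  refine ⟨fun k => (1 / 2) ^ k / B k, fun k => by have := hB0 k; positivity, ?_, fun j hj z => ?_⟩
  · exact contDiff_tsum (N := (n : ℕ∞)) (v := fun _ k => (1 / 2) ^ k) h3
      (fun _ _ => summable_geometric_two) h2
  · rw [iteratedFDeriv_tsum_apply (N := (n : ℕ∞)) (v := fun _ k => (1 / 2) ^ k) h3
      (fun _ _ => summable_geometric_two) h2 (by exact_mod_cast hj)]
    exact tsum_of_norm_bounded hasSum_geometric_two fun k => h2 j k z (by exact_mod_cast hj)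

lemma ridge_bound (j : ℕ) :
    ∃ B, ∀ z : Pl, ‖iteratedFDeriv ℝ j (fun z : Pl => z 1 * chi (z 1)) z‖ ≤ B := by
  have hc : ContDiff ℝ j fun s : ℝ => s * chi s := contDiff_id.mul (chi_contDiff j)
  have hs : HasCompactSupport fun s : ℝ => s * chi s :=
    HasCompactSupport.intro (isCompact_Icc (a := -1 / 2) (b := 3 / 2)) fun s hs => by
      by_contra h; exact hs (Ioo_subset_Icc_self (chi_ne (right_ne_zero_of_mul h)))
  obtain ⟨B, hB⟩ := (hs.iteratedFDeriv (𝕜 := ℝ) j).exists_bound_of_continuous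
    (hc.continuous_iteratedFDeriv le_rfl)
  set L : Pl →L[ℝ] ℝ := EuclideanSpace.proj (𝕜 := ℝ) (1 : Fin 2) with hL
  refine ⟨B * ∏ _i : Fin j, ‖L‖, fun z => ?_⟩
  have a3 := L.iteratedFDeriv_comp_right hc z (i := j) le_rfl
  refine le_trans (le_of_eq (congrArg norm a3)) ?_
  refine (ContinuousMultilinearMap.norm_compContinuousLinearMap_le _ _).trans ?_
  gcongr
  exact hB _

lemma good (m k : ℕ) (hm : 1 ≤ m) :
    Good (k + 1) m (2 * (k + 1 : ℝ))⁻¹ ((2 * (k + 1 : ℝ))⁻¹ ^ (m + 1) / 2) :=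
  ⟨by positivity, by push_cast; field_simp, by positivity, le_rfl, hm⟩

lemma exists_large (m : ℕ) {r : ℝ} (hr : r < 1 + 2 / (m + 1 : ℝ)) : ∃ k : ℕ,
    1 ≤ (((2 * (k + 1)) ^ (m + 1) * ((k + 1) * (k + 1)) : ℕ) : ℝ) *
      ((2 * (k + 1 : ℝ))⁻¹ ^ (m + 1) / 2) ^ r := by
  have hε : 0 < (m + 3 : ℝ) - (m + 1) * r := by
    have := mul_lt_mul_of_pos_left hr (by positivity : (0 : ℝ) < m + 1)
    rw [mul_add, mul_div_cancel₀ _ (by positivity)] at this
    linarith
  have h1 : Tendsto (fun k : ℕ => (2 * (k + 1 : ℝ)) ^ ((m + 3 : ℝ) - (m + 1) * r)) atTop atTop :=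
    (tendsto_rpow_atTop hε).comp
      ((tendsto_natCast_atTop_atTop.atTop_add tendsto_const_nhds).const_mul_atTop (by norm_num))
  obtain ⟨k, hk⟩ := (h1.eventually_ge_atTop (4 * 2 ^ r)).exists
  refine ⟨k, ?_⟩
  set T : ℝ := 2 * (k + 1 : ℝ) with hT
  have hT0 : 0 < T := by positivity
  have e1 : (((2 * (k + 1)) ^ (m + 1) * ((k + 1) * (k + 1)) : ℕ) : ℝ) = T ^ (m + 3 : ℝ) / 4 := by
    rw [show (m + 3 : ℝ) = ((m + 3 : ℕ) : ℝ) by push_cast; ring, Real.rpow_natCast, hT]
    push_cast; ring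
  have e2 : (T⁻¹ ^ (m + 1) / 2) ^ r = (T ^ ((m + 1 : ℝ) * r))⁻¹ / 2 ^ r := by
    rw [Real.div_rpow (by positivity) (by norm_num), Real.rpow_mul hT0.le, inv_pow,
      Real.inv_rpow (by positivity), show (m + 1 : ℝ) = ((m + 1 : ℕ) : ℝ) by push_cast; ring,
      Real.rpow_natCast]
  rw [Real.rpow_sub hT0] at hk
  have h2 : (0 : ℝ) < 2 ^ r := by positivity
  rw [e1, e2, div_mul_div_comm, one_le_div (by positivity), ← div_eq_mul_inv]
  exact hk

theorem flow_lower (m : ℕ) (hm : 1 ≤ m) :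
    ∃ g, IsFlow m g ∧ 1 + 2 / ((m : ENNReal) + 1) ≤ dimH (trapped g) := by
  choose Ψ hc hS hM q hq hsep using fun k => (good m k hm).model
  have hr : ContDiff ℝ (m + 1 : ℕ) fun z : Pl => z 1 * chi (z 1) := by
    have := chi_contDiff (m + 1)
    fun_prop
  set G : ℕ → Pl → ℝ := fun k z => z 1 * chi (z 1) + Ψ k z with hG
  obtain ⟨μ, hμ, hH, hb⟩ := stack (m + 1) (fun k z => G k (z - (2 * k : ℝ) • e1))
    (fun k => (hr.add (hc k)).comp (by fun_prop)) (fun k j hj => by
      obtain ⟨B, hB⟩ := ridge_bound j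
      have hj' : (j : WithTop ℕ∞) ≤ (m + 1 : ℕ) := by exact_mod_cast hj
      obtain ⟨B', hB'⟩ := ((hS k).compact.iteratedFDeriv (𝕜 := ℝ) j).exists_bound_of_continuous
        ((hc k).continuous_iteratedFDeriv hj')
      refine ⟨B + B', fun z => ?_⟩
      rw [iteratedFDeriv_comp_sub]
      exact le_trans (le_of_eq (congrArg norm (iteratedFDeriv_add_apply (hr.of_le hj').contDiffAt
        ((hc k).of_le hj').contDiffAt))) (norm_add_le_of_le (hB _) (hB' _)))
  set H : Pl → ℝ := fun z => ∑' k, μ k * G k (z - (2 * k : ℝ) • e1) with hHdef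
  obtain ⟨g, hg, hd, hu⟩ := ham_flow m hm H hH 2
    (fun x => by rw [← norm_iteratedFDeriv_one]; exact hb 1 (by omega) x)
    (fun x => by
      rw [← norm_iteratedFDeriv_one, norm_iteratedFDeriv_fderiv]; exact hb 2 (by omega) x)
  have hK : ∀ (k : ℕ) (z : Pl), z 1 ∈ Icc (2 * k : ℝ) (2 * k + 1) →
      H z = μ k * ((z - (2 * k : ℝ) • e1) 1 + Ψ k (z - (2 * k : ℝ) • e1)) := by
    intro k z hz
    have s1 : ∀ A : ℝ, (z - A • e1) 1 = z 1 - A := fun A => by simp [e1]
    simp only [hHdef]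
    rw [tsum_eq_single k fun j hj => ?_]
    · simp only [hG]
      rw [chi_one (by rw [s1]; constructor <;> linarith [hz.1, hz.2]), mul_one]
    · have a1 : (z - (2 * j : ℝ) • e1) 1 ∉ Ioo (-1 / 2 : ℝ) (3 / 2) := by
        rw [s1]
        rintro ⟨b1, b2⟩
        rcases lt_or_gt_of_ne hj with c | c
        · have : (j : ℝ) + 1 ≤ k := by exact_mod_cast c
          linarith [hz.1]
        · have : (k : ℝ) + 1 ≤ j := by exact_mod_cast c
          linarith [hz.2]
      have a2 : chi ((z - (2 * j : ℝ) • e1) 1) = 0 := by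
        by_contra h; exact a1 (chi_ne h)
      have a3 : Ψ j (z - (2 * j : ℝ) • e1) = 0 := by
        by_contra h; exact a1 (Qc_sub (Qo_sub (hS j _ h))).2
      simp only [hG, a2, a3, mul_zero, add_zero]
  refine ⟨g, hg, ENNReal.le_of_forall_nnreal_lt fun r hr => ?_⟩
  rcases eq_or_ne r 0 with rfl | hr0
  · simp
  have hr' : (r : ℝ) < 1 + 2 / (m + 1 : ℝ) := by
    have e : 1 + 2 / ((m : ENNReal) + 1) = ((1 + 2 / (m + 1) : ℝ≥0) : ℝ≥0∞) := by
      rw [ENNReal.coe_add, ENNReal.coe_div (by positivity)]; push_cast; rfl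
    rw [e, ENNReal.coe_lt_coe] at hr
    exact_mod_cast hr
  obtain ⟨k, hk⟩ := exists_large m hr'
  have hgood := good m k hm
  set η : ℝ := (2 * (k + 1 : ℝ))⁻¹ ^ (m + 1) / 2 with hη
  have hη0 : 0 < η := hgood.hη
  have hη1 : η < 1 := by
    have := hgood.η_le_pow (k := 0) (by omega)
    linarith [pow_zero (2 * (k + 1 : ℝ))⁻¹]
  set M : ℕ := (2 * (k + 1)) ^ (m + 1) with hMdef
  have hMη : 2 * η * M = 1 := by
    rw [hη, hMdef, inv_pow]; push_cast; field_simp
  obtain ⟨X, hX, hXr⟩ := exists_rec (fun i : Fin M => 2 * η * (i : ℕ)) hη0.le hη1 fun i => by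
    have : ((i : ℕ) : ℝ) + 1 ≤ M := by exact_mod_cast i.2
    constructor
    · positivity
    · nlinarith
  set K : Pl → ℝ := fun z => z 1 + Ψ k z with hKdef
  set P : (ℕ → Fin M × (Fin (k + 1) × Fin (k + 1))) → Pl := fun w =>
    (-1 - X fun n => (w n).1) • e0 + (2 * k + K (q k fun n => (w n).2)) • e1 with hP
  have hsub : range P ⊆ trapped g := by
    rintro _ ⟨w, rfl⟩
    exact trap (hH.differentiable (by simp)) hg.1 hg.2.1 hd hu (hμ k) (hM k) (hK k) (hq k _)
      (by linarith [(hX fun n => (w n).1).1])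
  refine le_trans (le_dimH_range (η := η) (δ := η) ?_ P hη0 hη0 (fun w w' n h1 h2 => ?_)
    (pos_iff_ne_zero.2 hr0) (by simpa [hMdef] using hk)) (dimH_mono hsub)
  · simp only [Fintype.card_prod, Fintype.card_fin]
    have : 1 < M := one_lt_pow₀ (by omega) (by omega)
    nlinarith
  · by_cases h3 : (w n).1 = (w' n).1
    · refine le_trans ?_ (PiLp.dist_apply_le (P w) (P w') 1)
      have := hsep k (fun n => (w n).2) (fun n => (w' n).2) n (fun i hi => by rw [h1 i hi])
        fun h => h2 (Prod.ext h3 h)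
      refine this.trans (le_of_eq ?_)
      simp [hP, hKdef, e0, e1, Real.dist_eq]
    · refine le_trans ?_ (PiLp.dist_apply_le (P w) (P w') 0)
      have := sep_of_rec (α := fun i : Fin M => 2 * η * (i : ℕ)) hη0.le hX hXr n (fun n => (w n).1) (fun n => (w' n).1)
        (fun i hi => by rw [h1 i hi]) (by
          rw [← mul_sub, abs_mul, abs_of_pos (by positivity)]
          refine le_mul_of_one_le_right (by positivity) ?_
          have : ((w n).1 : ℕ) ≠ ((w' n).1 : ℕ) := fun h => h3 (Fin.ext h)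
          have h4 : (1 : ℤ) ≤ |(((w n).1 : ℕ) : ℤ) - (((w' n).1 : ℕ) : ℤ)| :=
            Int.one_le_abs (by omega)
          exact_mod_cast h4)
      refine this.trans (le_of_eq ?_)
      have p0 : ∀ w, P w 0 = -1 - X fun n => (w n).1 := fun w => by simp [hP, e0, e1]
      rw [p0, p0, Real.dist_eq, sub_sub_sub_cancel_left, abs_sub_comm]

end Pool.Agent.MP_6357da_an.H67
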