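import Pool.Agent.MP_6357da_an.H67.Ham
import Pool.Agent.MP_6357da_an.H67.Dim

/-! A self-similar Hamiltonian, monotone in the second variable, with many critical values. -/

set_option autoImplicit false
open Filter Topology Set Metric MeasureTheory
open scoped NNReal

namespace Pool.Agent.MP_6357da_an.H67

noncomputable def chi (s : ℝ) : ℝ :=
  Real.smoothTransition (2 * s + 1) * Real.smoothTransition (3 - 2 * s)

lemma chi_contDiff (n : ℕ) : ContDiff ℝ n chi := by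
  unfold chi
  exact (Real.smoothTransition.contDiff.comp (by fun_prop)).mul
    (Real.smoothTransition.contDiff.comp (by fun_prop))

lemma chi_nonneg (s : ℝ) : 0 ≤ chi s :=
  mul_nonneg (Real.smoothTransition.nonneg _) (Real.smoothTransition.nonneg _)

lemma chi_le_one (s : ℝ) : chi s ≤ 1 :=
  mul_le_one₀ (Real.smoothTransition.le_one _) (Real.smoothTransition.nonneg _)
    (Real.smoothTransition.le_one _)

lemma chi_one {s : ℝ} (h : s ∈ Icc (0 : ℝ) 1) : chi s = 1 := by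
  unfold chi
  rw [Real.smoothTransition.one_of_one_le (by linarith [h.1]),
    Real.smoothTransition.one_of_one_le (by linarith [h.2]), mul_one]

lemma chi_ne {s : ℝ} (h : chi s ≠ 0) : s ∈ Ioo (-1 / 2 : ℝ) (3 / 2) := by
  unfold chi at h
  obtain ⟨h1, h2⟩ := mul_ne_zero_iff.1 h
  rw [Ne, Real.smoothTransition.zero_iff_nonpos, not_le] at h1 h2
  constructor <;> linarith

lemma deriv_chi_nonneg {s : ℝ} (h : s < 1) : 0 ≤ deriv chi s := by
  have h1 : chi =ᶠ[𝓝 s] fun t => Real.smoothTransition (2 * t + 1) := by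
    filter_upwards [Iio_mem_nhds h] with t ht
    unfold chi
    rw [Real.smoothTransition.one_of_one_le (x := 3 - 2 * t) (by linarith [mem_Iio.1 ht]), mul_one]
  rw [h1.deriv_eq]
  exact Monotone.deriv_nonneg (Real.smoothTransition.monotone.comp fun a b hab => by
    linarith)

lemma deriv_chi_nonpos {s : ℝ} (h : 0 < s) : deriv chi s ≤ 0 := by
  have h1 : chi =ᶠ[𝓝 s] fun t => Real.smoothTransition (3 - 2 * t) := by
    filter_upwards [Ioi_mem_nhds h] with t ht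
    unfold chi
    rw [Real.smoothTransition.one_of_one_le (x := 2 * t + 1) (by linarith [mem_Ioi.1 ht]), one_mul]
  rw [h1.deriv_eq]
  exact Antitone.deriv_nonpos (Real.smoothTransition.monotone.comp_antitone fun a b hab => by
    linarith)

lemma deriv_chi_mul {s β c : ℝ} (h0 : 0 ≤ β) (h1 : β ≤ c) : 0 ≤ deriv chi s * (β - c * s) := by
  rcases le_or_gt s 0 with h | h
  · exact mul_nonneg (deriv_chi_nonneg (by linarith)) (by nlinarith)
  rcases le_or_gt 1 s with h' | h'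
  · exact mul_nonneg_of_nonpos_of_nonpos (deriv_chi_nonpos h) (by nlinarith)
  · rw [le_antisymm (deriv_chi_nonpos h) (deriv_chi_nonneg h'), zero_mul]

structure Good (N m : ℕ) (σ η : ℝ) : Prop where
  hσ : 0 < σ
  hN : 2 * N * σ = 1
  hη : 0 < η
  hη' : η ≤ σ ^ (m + 1) / 2
  hm : 1 ≤ m

variable {N m : ℕ} {σ η : ℝ}

lemma Good.σ_le (h : Good N m σ η) : σ ≤ 1 / 2 := by
  have h1 := h.hN
  have h2 := h.hσ
  rcases Nat.eq_zero_or_pos N with rfl | hN
  · simp at h1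
  · have : (1 : ℝ) ≤ N := by exact_mod_cast hN
    nlinarith

lemma Good.η_le_pow (h : Good N m σ η) {k : ℕ} (hk : k ≤ m + 1) : η ≤ σ ^ k / 2 := by
  have := pow_le_pow_of_le_one h.hσ.le (h.σ_le.trans (by norm_num)) hk
  linarith [h.hη']

lemma Good.η_le (h : Good N m σ η) : η ≤ σ ^ 2 / 2 := h.η_le_pow (by have := h.hm; omega)

lemma Good.fin_le (h : Good N m σ η) (i : Fin N) : 2 * ((i : ℕ) : ℝ) * σ ≤ 1 - 2 * σ := by
  have h1 : ((i : ℕ) : ℝ) + 1 ≤ N := by exact_mod_cast i.2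
  nlinarith [h.hN, h.hσ]

noncomputable def pp (σ : ℝ) (j : Fin N) : ℝ := (2 * ((j : ℕ) : ℝ) + 1 / 2) * σ

noncomputable def PP (σ : ℝ) (d : Fin N × Fin N) : Pl := pp σ d.1 • e0 + pp σ d.2 • e1

noncomputable def Tinv (σ : ℝ) (d : Fin N × Fin N) (z : Pl) : Pl := σ⁻¹ • (z - PP σ d)

noncomputable def TT (σ : ℝ) (d : Fin N × Fin N) (u : Pl) : Pl := PP σ d + σ • u

lemma TT_zero (d : Fin N × Fin N) (u : Pl) : TT σ d u 0 = pp σ d.1 + σ * u 0 := by
  simp [TT, PP, e0, e1]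

lemma TT_one (d : Fin N × Fin N) (u : Pl) : TT σ d u 1 = pp σ d.2 + σ * u 1 := by
  simp [TT, PP, e0, e1]

lemma Tinv_TT (hσ : 0 < σ) (d : Fin N × Fin N) (u : Pl) : Tinv σ d (TT σ d u) = u := by
  simp [Tinv, TT, smul_smul, inv_mul_cancel₀ hσ.ne']

lemma TT_Tinv (hσ : 0 < σ) (d : Fin N × Fin N) (u : Pl) : TT σ d (Tinv σ d u) = u := by
  simp [Tinv, TT, smul_smul, mul_inv_cancel₀ hσ.ne']

lemma Tinv_zero (hσ : 0 < σ) (d : Fin N × Fin N) (z : Pl) :
    Tinv σ d z 0 = z 0 / σ - (2 * ((d.1 : ℕ) : ℝ) + 1 / 2) := by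
  simp [Tinv, PP, e0, e1, pp]; field_simp

lemma Tinv_one (hσ : 0 < σ) (d : Fin N × Fin N) (z : Pl) :
    Tinv σ d z 1 = z 1 / σ - (2 * ((d.2 : ℕ) : ℝ) + 1 / 2) := by
  simp [Tinv, PP, e0, e1, pp]; field_simp

lemma Tinv_contDiff (n : ℕ) (d : Fin N × Fin N) : ContDiff ℝ n (Tinv σ d) := by
  unfold Tinv; fun_prop

lemma idx_uniq {s : ℝ} {i j : Fin N}
    (hi : s - (2 * ((i : ℕ) : ℝ) + 1 / 2) ∈ Ioo (-1 / 2 : ℝ) (3 / 2))
    (hj : s - (2 * ((j : ℕ) : ℝ) + 1 / 2) ∈ Ioo (-1 / 2 : ℝ) (3 / 2)) : i = j := by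
  have h1 : ((i : ℕ) : ℝ) < (j : ℕ) + 1 := by linarith [hi.1, hj.2]
  have h2 : ((j : ℕ) : ℝ) < (i : ℕ) + 1 := by linarith [hj.1, hi.2]
  have h1' : (i : ℕ) < j + 1 := by exact_mod_cast h1
  have h2' : (j : ℕ) < i + 1 := by exact_mod_cast h2
  exact Fin.ext (by omega)

def Qo : Set Pl := {z | z 0 ∈ Ioo (0 : ℝ) 1 ∧ z 1 ∈ Ioo (0 : ℝ) 1}
def Qc : Set Pl := {z | z 0 ∈ Icc (0 : ℝ) 1 ∧ z 1 ∈ Icc (0 : ℝ) 1}
def Qw : Set Pl := {z | z 0 ∈ Ioo (-1 / 2 : ℝ) (3 / 2) ∧ z 1 ∈ Ioo (-1 / 2 : ℝ) (3 / 2)}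

lemma cont0 : Continuous fun z : Pl => z 0 := by fun_prop
lemma cont1 : Continuous fun z : Pl => z 1 := by fun_prop

lemma isOpen_Qo : IsOpen Qo := (isOpen_Ioo.preimage cont0).inter (isOpen_Ioo.preimage cont1)
lemma isOpen_Qw : IsOpen Qw := (isOpen_Ioo.preimage cont0).inter (isOpen_Ioo.preimage cont1)
lemma isClosed_Qc : IsClosed Qc :=
  (isClosed_Icc.preimage cont0).inter (isClosed_Icc.preimage cont1)
lemma Qo_sub : Qo ⊆ Qc := fun _ h => ⟨Ioo_subset_Icc_self h.1, Ioo_subset_Icc_self h.2⟩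
lemma Qc_sub : Qc ⊆ Qw := fun _ h =>
  ⟨⟨by linarith [h.1.1], by linarith [h.1.2]⟩, ⟨by linarith [h.2.1], by linarith [h.2.2]⟩⟩

lemma norm_le_add (z : Pl) : ‖z‖ ≤ |z 0| + |z 1| := by
  conv_lhs => rw [decomp z]
  refine (norm_add_le _ _).trans (le_of_eq ?_)
  simp [norm_smul, e0, e1]

lemma isCompact_Qc : IsCompact Qc := by
  refine Metric.isCompact_of_isClosed_isBounded isClosed_Qc
    ((isBounded_closedBall (x := (0 : Pl)) (r := 2)).subset fun z hz => ?_)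
  rw [mem_closedBall_zero_iff]
  have := norm_le_add z
  rw [abs_of_nonneg hz.1.1, abs_of_nonneg hz.2.1] at this
  linarith [hz.1.2, hz.2.2]

lemma d_uniq (hσ : 0 < σ) {d d' : Fin N × Fin N} {z : Pl} (h : Tinv σ d z ∈ Qw)
    (h' : Tinv σ d' z ∈ Qw) : d = d' := by
  obtain ⟨a, b⟩ := h
  obtain ⟨a', b'⟩ := h'
  rw [Tinv_zero hσ] at a a'
  rw [Tinv_one hσ] at b b'
  exact Prod.ext (idx_uniq a a') (idx_uniq b b')

lemma Good.mem_Qo (h : Good N m σ η) {d : Fin N × Fin N} {z : Pl} (hz : Tinv σ d z ∈ Qw) :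
    z ∈ Qo := by
  have hσ := h.hσ
  rw [← TT_Tinv hσ d z]
  obtain ⟨⟨a1, a2⟩, b1, b2⟩ := hz
  have c1 := h.fin_le d.1
  have c2 := h.fin_le d.2
  have c3 : (0 : ℝ) ≤ (d.1 : ℕ) := Nat.cast_nonneg _
  have c4 : (0 : ℝ) ≤ (d.2 : ℕ) := Nat.cast_nonneg _
  refine ⟨⟨?_, ?_⟩, ?_, ?_⟩ <;> simp only [TT_zero, TT_one, pp] <;> nlinarith

noncomputable def theta (β c : ℝ) (u : Pl) : ℝ := chi (u 0) * (chi (u 1) * (β - c * u 1))

lemma theta_contDiff (n : ℕ) (β c : ℝ) : ContDiff ℝ n (theta β c) := by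
  have := chi_contDiff n
  unfold theta; fun_prop

lemma theta_ne {β c : ℝ} {u : Pl} (h : theta β c u ≠ 0) : u ∈ Qw :=
  ⟨chi_ne (left_ne_zero_of_mul h), chi_ne (left_ne_zero_of_mul (right_ne_zero_of_mul h))⟩

lemma line_deriv {F : Pl → ℝ} {z : Pl} (hF : DifferentiableAt ℝ F z) (v : Pl) :
    HasDerivAt (fun t : ℝ => F (z + t • v)) (fderiv ℝ F z v) 0 := by
  have h1 : HasDerivAt (fun t : ℝ => z + t • v) v 0 := by
    simpa using ((hasDerivAt_id (0 : ℝ)).smul_const v).const_add z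
  have h2 : HasFDerivAt F (fderiv ℝ F z) (z + (0 : ℝ) • v) := by simpa using hF.hasFDerivAt
  exact h2.comp_hasDerivAt 0 h1

lemma theta_deriv {β c : ℝ} (h0 : 0 ≤ β) (h1 : β ≤ c) (u : Pl) :
    -(c * (chi (u 0) * chi (u 1))) ≤ fderiv ℝ (theta β c) u e1 := by
  have a1 := line_deriv (((theta_contDiff 1 β c).differentiable (by simp)) u) e1
  have a2 : HasDerivAt chi (deriv chi (u 1)) (u 1 + 0) := by
    simpa using (((chi_contDiff 1).differentiable (by simp)) (u 1)).hasDerivAt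
  have a3 := (((a2.comp_const_add (u 1) 0).mul
    ((((hasDerivAt_id (0 : ℝ)).const_add (u 1)).const_mul c).const_sub β)).const_mul (chi (u 0)))
  have e : (fun t : ℝ => theta β c (u + t • e1)) =
      fun t => chi (u 0) * (chi (u 1 + t) * (β - c * (u 1 + t))) := by
    funext t; simp [theta, e1]
  rw [e] at a1
  rw [a1.unique a3]
  have := mul_nonneg (chi_nonneg (u 0)) (deriv_chi_mul (s := u 1) h0 h1)
  simp only [id, add_zero, mul_one]
  nlinarith

noncomputable def bb (σ : ℝ) (i : Fin N) : ℝ := 2 * σ ^ 2 * ((i : ℕ) : ℝ)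

noncomputable def psi (N : ℕ) (σ η : ℝ) (z : Pl) : ℝ :=
  ∑ d : Fin N × Fin N, theta (bb σ d.1) (σ - η) (Tinv σ d z)

noncomputable def RR (N : ℕ) (σ η : ℝ) (F : Pl → ℝ) (z : Pl) : ℝ :=
  η * ∑ d : Fin N × Fin N, F (Tinv σ d z)

lemma psi_contDiff (n : ℕ) : ContDiff ℝ n (psi N σ η) :=
  ContDiff.sum fun d _ => (theta_contDiff n _ _).comp (Tinv_contDiff n d)

lemma RR_contDiff {n : ℕ} {F : Pl → ℝ} (hF : ContDiff ℝ n F) : ContDiff ℝ n (RR N σ η F) :=
  contDiff_const.mul (ContDiff.sum fun d _ => hF.comp (Tinv_contDiff n d))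

def Supp (F : Pl → ℝ) : Prop := ∀ z, F z ≠ 0 → z ∈ Qo

lemma Good.supp_psi (h : Good N m σ η) : Supp (psi N σ η) := fun z hz => by
  obtain ⟨d, -, hd⟩ := Finset.exists_ne_zero_of_sum_ne_zero hz
  exact h.mem_Qo (theta_ne hd)

lemma Good.supp_RR (h : Good N m σ η) {F : Pl → ℝ} (hF : Supp F) : Supp (RR N σ η F) :=
  fun z hz => by
    obtain ⟨d, -, hd⟩ := Finset.exists_ne_zero_of_sum_ne_zero (right_ne_zero_of_mul hz)
    exact h.mem_Qo (Qc_sub (Qo_sub (hF _ hd)))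

lemma Supp.compact {F : Pl → ℝ} (hF : Supp F) : HasCompactSupport F :=
  HasCompactSupport.intro isCompact_Qc fun z hz => by
    by_contra h; exact hz (Qo_sub (hF z h))

lemma RR_eq (hσ : 0 < σ) {F : Pl → ℝ} (hF : Supp F) {d : Fin N × Fin N} {z : Pl}
    (hz : Tinv σ d z ∈ Qw) : RR N σ η F z = η * F (Tinv σ d z) := by
  unfold RR
  rw [Finset.sum_eq_single d (fun d' _ hd => ?_) (by simp)]
  by_contra hc
  exact hd (d_uniq hσ (Qc_sub (Qo_sub (hF _ hc))) hz)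

lemma psi_eq (hσ : 0 < σ) {d : Fin N × Fin N} {z : Pl} (hz : Tinv σ d z ∈ Qw) :
    psi N σ η z = theta (bb σ d.1) (σ - η) (Tinv σ d z) := by
  unfold psi
  rw [Finset.sum_eq_single d (fun d' _ hd => ?_) (by simp)]
  by_contra hc
  exact hd (d_uniq hσ (theta_ne hc) hz)

lemma RR_local (hσ : 0 < σ) {F : Pl → ℝ} (hF : Supp F) (z : Pl) :
    RR N σ η F =ᶠ[𝓝 z] (fun _ => 0) ∨
      ∃ d : Fin N × Fin N, RR N σ η F =ᶠ[𝓝 z] fun y => η * F (Tinv σ d y) := by
  by_cases h : ∃ d : Fin N × Fin N, Tinv σ d z ∈ Qc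
  · obtain ⟨d, hd⟩ := h
    refine Or.inr ⟨d, ?_⟩
    filter_upwards [(isOpen_Qw.preimage (Tinv_contDiff 0 d).continuous).mem_nhds (Qc_sub hd)]
      with y hy using RR_eq hσ hF hy
  · push Not at h
    left
    have : ∀ᶠ y in 𝓝 z, ∀ d : Fin N × Fin N, Tinv σ d y ∉ Qc := eventually_all.2 fun d =>
      (isClosed_Qc.isOpen_compl.preimage (Tinv_contDiff 0 d).continuous).mem_nhds (h d)
    filter_upwards [this] with y hy
    unfold RR
    rw [Finset.sum_eq_zero, mul_zero]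
    intro d _
    by_contra hc
    exact hy d (Qo_sub (hF _ hc))

lemma norm_iter_scale (hσ : 0 < σ) (hη : 0 < η) {k : ℕ} {F : Pl → ℝ} (hF : ContDiff ℝ k F)
    (d : Fin N × Fin N) (z : Pl) :
    ‖iteratedFDeriv ℝ k (fun y => η * F (Tinv σ d y)) z‖ ≤
      η * σ⁻¹ ^ k * ‖iteratedFDeriv ℝ k F (Tinv σ d z)‖ := by
  set L : Pl →L[ℝ] Pl := σ⁻¹ • ContinuousLinearMap.id ℝ Pl with hL
  have hLn : ‖L‖ ≤ σ⁻¹ := ContinuousLinearMap.opNorm_le_bound _ (by positivity) fun x => by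
    simp [hL, norm_smul, abs_of_pos hσ]
  have a1 := iteratedFDeriv_const_smul_apply' (a := η) (i := k) (x := z)
    (hF.comp (Tinv_contDiff (σ := σ) k d)).contDiffAt
  have a2 := iteratedFDeriv_comp_sub (𝕜 := ℝ) (f := F ∘ L) k (PP σ d) z
  have a3 := L.iteratedFDeriv_comp_right hF (z - PP σ d) (i := k) le_rfl
  have a4 := (iteratedFDeriv ℝ k F (L (z - PP σ d))).norm_compContinuousLinearMap_le fun _ => L
  rw [← a3, ← a2] at a4
  refine le_trans (le_of_eq (congrArg norm a1)) ?_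
  rw [norm_smul, Real.norm_eq_abs, abs_of_pos hη, mul_assoc]
  gcongr
  refine a4.trans ?_
  rw [mul_comm, Finset.prod_const, Finset.card_univ, Fintype.card_fin]
  gcongr
  exact le_rfl

lemma Good.iter_RR (h : Good N m σ η) {k : ℕ} (hk : k ≤ m + 1) {F : Pl → ℝ} (hF : ContDiff ℝ k F)
    (hS : Supp F) {B : ℝ} (hB : ∀ z, ‖iteratedFDeriv ℝ k F z‖ ≤ B) (z : Pl) :
    ‖iteratedFDeriv ℝ k (RR N σ η F) z‖ ≤ B / 2 := by
  have hB0 : 0 ≤ B := (norm_nonneg _).trans (hB 0)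
  have hσ := h.hσ
  rcases RR_local (N := N) (η := η) h.hσ hS z with h1 | ⟨d, h1⟩
  · rw [(h1.iteratedFDeriv ℝ k).self_of_nhds, iteratedFDeriv_fun_zero]
    simp only [Pi.zero_apply, norm_zero]; linarith
  · rw [(h1.iteratedFDeriv ℝ k).self_of_nhds]
    refine (norm_iter_scale h.hσ h.hη hF d z).trans ?_
    have a1 : η * σ⁻¹ ^ k ≤ 1 / 2 := by
      rw [inv_pow, ← div_eq_mul_inv, div_le_iff₀ (by positivity)]
      linarith [h.η_le_pow hk]
    calc _ ≤ 1 / 2 * B := by gcongr; exact hB _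
      _ = _ := by ring

theorem Good.exists_fix (h : Good N m σ η) : ∃ Ψ : Pl → ℝ, ContDiff ℝ (m + 1 : ℕ) Ψ ∧ Supp Ψ ∧
    ∀ z, Ψ z = psi N σ η z + RR N σ η Ψ z := by
  set Φ : ℕ → Pl → ℝ := fun n => (RR N σ η)^[n] (psi N σ η) with hΦ
  have hsucc : ∀ n, Φ (n + 1) = RR N σ η (Φ n) := fun n => Function.iterate_succ_apply' _ _ _
  have hc : ∀ (k n : ℕ), ContDiff ℝ k (Φ n) := fun k n => by
    induction n with
    | zero => exact psi_contDiff k
    | succ n ih => rw [hsucc]; exact RR_contDiff ih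
  have hS : ∀ n, Supp (Φ n) := fun n => by
    induction n with
    | zero => exact h.supp_psi
    | succ n ih => rw [hsucc]; exact h.supp_RR ih
  have hB : ∀ k : ℕ, ∃ B, ∀ z, ‖iteratedFDeriv ℝ k (psi N σ η) z‖ ≤ B := fun k =>
    (h.supp_psi.compact.iteratedFDeriv k).exists_bound_of_continuous
      ((psi_contDiff k).continuous_iteratedFDeriv le_rfl)
  choose B hB using hB
  have hbd : ∀ k ≤ m + 1, ∀ n z, ‖iteratedFDeriv ℝ k (Φ n) z‖ ≤ B k * (1 / 2) ^ n := by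
    intro k hk n
    induction n with
    | zero => exact fun z => (hB k z).trans (by simp)
    | succ n ih =>
      intro z
      rw [hsucc]
      refine (h.iter_RR hk (hc k n) (hS n) ih z).trans (le_of_eq ?_)
      ring
  have hsum : ∀ z, Summable fun n => Φ n z := fun z =>
    Summable.of_norm_bounded (summable_geometric_two.mul_left (B 0)) fun n => by
      simpa using hbd 0 (by omega) n z
  refine ⟨fun z => ∑' n, Φ n z, ?_, fun z hz => ?_, fun z => ?_⟩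
  · exact contDiff_tsum (N := ((m + 1 : ℕ) : ℕ∞)) (v := fun k n => B k * (1 / 2) ^ n)
      (fun n => hc (m + 1) n) (fun k _ => summable_geometric_two.mul_left (B k))
      (fun k n z hk => hbd k (by exact_mod_cast hk) n z)
  · by_contra hc
    refine hz ?_
    have : ∀ n, Φ n z = 0 := fun n => by
      by_contra h'; exact hc (hS n z h')
    simp [this]
  · show ∑' n, Φ n z = _
    rw [(hsum z).tsum_eq_zero_add]
    congr 1
    simp only [hsucc, RR]
    rw [tsum_mul_left, Summable.tsum_finsetSum fun d _ => hsum _]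

end Pool.Agent.MP_6357da_an.H67
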