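import Mathlib

/-! Global flows of bounded Lipschitz vector fields and their smoothness. -/

set_option autoImplicit false
open Filter Topology Set Metric MeasureTheory
open scoped NNReal

namespace Pool.Agent.MP_6357da_an.H67

section Nem

variable {K : Type} [TopologicalSpace K] [CompactSpace K]
  {E : Type} [NormedAddCommGroup E] [NormedSpace ℝ E]

noncomputable def appL (K : Type) [TopologicalSpace K] [CompactSpace K]
    (E : Type) [NormedAddCommGroup E] [NormedSpace ℝ E]
    (F : Type) [NormedAddCommGroup F] [NormedSpace ℝ F] :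
    C(K, E →L[ℝ] F) →L[ℝ] (C(K, E) →L[ℝ] C(K, F)) :=
  LinearMap.mkContinuous₂
    (LinearMap.mk₂ ℝ (fun (A : C(K, E →L[ℝ] F)) (h : C(K, E)) =>
        (⟨fun s => A s (h s), A.continuous.clm_apply h.continuous⟩ : C(K, F)))
      (fun _ _ _ => by ext; simp) (fun _ _ _ => by ext; simp)
      (fun _ _ _ => by ext; simp) (fun _ _ _ => by ext; simp)) 1
    (fun A h => by
      rw [ContinuousMap.norm_le _ (by positivity)]
      intro s
      simp only [LinearMap.mk₂_apply, ContinuousMap.coe_mk, one_mul]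
      exact (A s).le_of_opNorm_le_of_le (A.norm_coe_le_norm s) (h.norm_coe_le_norm s))

variable {F : Type} [NormedAddCommGroup F] [NormedSpace ℝ F]

lemma appL_apply (A : C(K, E →L[ℝ] F)) (h : C(K, E)) (s : K) : appL K E F A h s = A s (h s) := rfl

lemma norm_appL_le (A : C(K, E →L[ℝ] F)) : ‖appL K E F A‖ ≤ ‖A‖ := by
  refine ContinuousLinearMap.opNorm_le_bound _ (norm_nonneg A) fun h => ?_
  rw [ContinuousMap.norm_le _ (by positivity)]
  intro s
  exact (A s).le_of_opNorm_le_of_le (A.norm_coe_le_norm s) (h.norm_coe_le_norm s)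

lemma hasFDerivAt_nem (f : C(E, F)) (f' : C(E, E →L[ℝ] F)) (hf : ∀ x, HasFDerivAt f (f' x) x)
    (γ : C(K, E)) :
    HasFDerivAt (fun γ : C(K, E) => f.comp γ) (appL K E F (f'.comp γ)) γ := by
  rw [hasFDerivAt_iff_isLittleO_nhds_zero, Asymptotics.isLittleO_iff]
  intro c hc
  have hcont : Continuous fun γ : C(K, E) => f'.comp γ := ContinuousMap.continuous_postcomp f'
  obtain ⟨δ, hδ, h⟩ := (Metric.continuous_iff (α := C(K, E)) (β := C(K, E →L[ℝ] F))).1 hcont γ c hc
  filter_upwards [ball_mem_nhds (0 : C(K, E)) hδ] with η hη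
  rw [mem_ball_zero_iff] at hη
  rw [ContinuousMap.norm_le _ (by positivity)]
  intro s
  have h1 : ‖η s‖ ≤ ‖η‖ := η.norm_coe_le_norm s
  have key := (convex_ball (γ s) δ).norm_image_sub_le_of_norm_hasFDerivWithin_le'
    (f := f) (f' := f') (φ := f' (γ s)) (C := c) (fun x _ => (hf x).hasFDerivWithinAt)
    (fun x hx => by
      have h2 := h (γ + ContinuousMap.const K (x - γ s)) (by
        rw [dist_eq_norm, add_sub_cancel_left]
        rw [mem_ball, dist_eq_norm] at hx
        refine lt_of_le_of_lt ?_ hx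
        rw [ContinuousMap.norm_le _ (norm_nonneg _)]
        intro _; exact le_rfl)
      have h3 := (ContinuousMap.dist_apply_le_dist s).trans h2.le
      simpa [dist_eq_norm] using h3)
    (mem_ball_self hδ) (y := γ s + η s) (by simpa using h1.trans_lt hη)
  simp only [add_sub_cancel_left] at key
  refine le_trans (le_of_eq ?_) (key.trans (by gcongr))
  rfl

theorem contDiff_nem (n : ℕ) : ∀ {F : Type} [NormedAddCommGroup F] [NormedSpace ℝ F]
    (f : C(E, F)), ContDiff ℝ n f → ContDiff ℝ n (fun γ : C(K, E) => f.comp γ) := by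
  induction n with
  | zero =>
    intro F _ _ f _
    exact contDiff_zero.2 (ContinuousMap.continuous_postcomp f)
  | succ n ih =>
    intro F _ _ f hf
    obtain ⟨f', hf', hd⟩ := contDiff_succ_iff_hasFDerivAt.1 hf
    refine contDiff_succ_iff_hasFDerivAt.2
      ⟨fun γ => appL K E F ((⟨f', hf'.continuous⟩ : C(E, E →L[ℝ] F)).comp γ), ?_,
        fun γ => hasFDerivAt_nem f ⟨f', hf'.continuous⟩ hd γ⟩
    exact (appL K E F).contDiff.comp (ih ⟨f', hf'.continuous⟩ hf')

end Nem

variable {E : Type} [NormedAddCommGroup E] [NormedSpace ℝ E] [CompleteSpace E]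

omit [NormedSpace ℝ E] [CompleteSpace E] in
lemma cont_proj (γ : C(Icc (0 : ℝ) 1, E)) : Continuous fun r : ℝ => γ (projIcc 0 1 zero_le_one r) :=
  γ.continuous.comp continuous_projIcc

omit [CompleteSpace E] in
lemma norm_int_le (γ : C(Icc (0 : ℝ) 1, E)) (s : Icc (0 : ℝ) 1) :
    ‖∫ r in (0 : ℝ)..s, γ (projIcc 0 1 zero_le_one r)‖ ≤ ‖γ‖ := by
  have := intervalIntegral.norm_integral_le_of_norm_le_const (a := 0) (b := s) (C := ‖γ‖)
    (f := fun r : ℝ => γ (projIcc 0 1 zero_le_one r)) (fun r _ => γ.norm_coe_le_norm _)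
  refine this.trans (mul_le_of_le_one_right (norm_nonneg _) ?_)
  rw [sub_zero, abs_of_nonneg s.2.1]; exact s.2.2

/-- The Volterra operator. -/
noncomputable def volt (E : Type) [NormedAddCommGroup E] [NormedSpace ℝ E] [CompleteSpace E] :
    C(Icc (0 : ℝ) 1, E) →L[ℝ] C(Icc (0 : ℝ) 1, E) :=
  LinearMap.mkContinuous
    { toFun := fun γ => ⟨fun s => ∫ r in (0 : ℝ)..s, γ (projIcc 0 1 zero_le_one r),
        (intervalIntegral.continuous_primitive (fun a b => (cont_proj γ).intervalIntegrable a b)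
          0).comp continuous_subtype_val⟩
      map_add' := fun γ η => by
        ext s
        simp only [ContinuousMap.add_apply, ContinuousMap.coe_mk]
        exact intervalIntegral.integral_add ((cont_proj γ).intervalIntegrable _ _)
          ((cont_proj η).intervalIntegrable _ _)
      map_smul' := fun c γ => by
        ext s
        simp only [ContinuousMap.smul_apply, ContinuousMap.coe_mk, RingHom.id_apply]
        exact intervalIntegral.integral_smul _ _ } 1
    (fun γ => by
      rw [one_mul, ContinuousMap.norm_le _ (norm_nonneg _)]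
      exact norm_int_le γ)

lemma volt_apply (γ : C(Icc (0 : ℝ) 1, E)) (s : Icc (0 : ℝ) 1) :
    volt E γ s = ∫ r in (0 : ℝ)..s, γ (projIcc 0 1 zero_le_one r) := rfl

lemma norm_volt_le : ‖volt E‖ ≤ 1 := LinearMap.mkContinuous_norm_le _ zero_le_one _

theorem exists_solution {v : E → E} {K C : ℝ≥0} (hK : LipschitzWith K v) (hC : ∀ x, ‖v x‖ ≤ C)
    (x : E) : ∃ α : ℝ → E, α 0 = x ∧ ∀ t, HasDerivAt α (v (α t)) t := by
  have h1 : ∀ T : ℝ≥0, ∃ α : ℝ → E, α 0 = x ∧ ∀ t ∈ Ioo (-(T : ℝ)) T, HasDerivAt α (v (α t)) t := by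
    intro T
    have hpl : IsPicardLindelof (fun _ => v) (tmin := -(T : ℝ)) (tmax := T)
        ⟨0, by simp⟩ x (C * T) 0 C K :=
      IsPicardLindelof.of_time_independent (fun y _ => hC y) hK.lipschitzOnWith (by simp)
    obtain ⟨α, h0, hα⟩ := hpl.exists_eq_forall_mem_Icc_hasDerivWithinAt₀
    exact ⟨α, h0, fun t ht => (hα t (Ioo_subset_Icc_self ht)).hasDerivAt (Icc_mem_nhds ht.1 ht.2)⟩
  choose α h0 hα using h1
  have h2 : ∀ S T : ℝ≥0, ∀ t : ℝ, |t| < S → |t| < T → α S t = α T t := by
    intro S T t hS hT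
    have hm : |t| < min (S : ℝ) T := lt_min hS hT
    have hsub1 : Ioo (-min (S : ℝ) T) (min (S : ℝ) T) ⊆ Ioo (-(S : ℝ)) S :=
      Ioo_subset_Ioo (neg_le_neg (min_le_left _ _)) (min_le_left _ _)
    have hsub2 : Ioo (-min (S : ℝ) T) (min (S : ℝ) T) ⊆ Ioo (-(T : ℝ)) T :=
      Ioo_subset_Ioo (neg_le_neg (min_le_right _ _)) (min_le_right _ _)
    have hpos : 0 < min (S : ℝ) T := (abs_nonneg t).trans_lt hm
    exact ODE_solution_unique_of_mem_Ioo (v := fun _ => v) (s := fun _ => univ) (K := K)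
      (a := -min (S : ℝ) T) (b := min (S : ℝ) T) (t₀ := 0)
      (fun _ _ => hK.lipschitzOnWith) ⟨by linarith, hpos⟩
      (fun t ht => ⟨hα S t (hsub1 ht), trivial⟩) (fun t ht => ⟨hα T t (hsub2 ht), trivial⟩)
      ((h0 S).trans (h0 T).symm) (abs_lt.1 hm)
  refine ⟨fun t => α (Real.nnabs t + 1) t, h0 _, fun t => ?_⟩
  have hlt : ∀ s : ℝ, |s| < ((Real.nnabs s + 1 : ℝ≥0) : ℝ) := fun s => by simp
  have hev : (fun s => α (Real.nnabs s + 1) s) =ᶠ[𝓝 t] α (Real.nnabs t + 1) := by
    filter_upwards [continuous_abs.continuousAt.eventually_lt continuousAt_const (hlt t)] with s hs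
    exact h2 _ _ s (hlt s) hs
  exact (hα _ t (abs_lt.1 (hlt t))).congr_of_eventuallyEq hev

section Flow

variable {v : E → E} {K : ℝ≥0} {g : ℝ → E → E}

omit [CompleteSpace E] in
lemma flow_add (hK : LipschitzWith K v) (h0 : ∀ x, g 0 x = x)
    (hg : ∀ x t, HasDerivAt (fun s => g s x) (v (g t x)) t) (t s : ℝ) (x : E) :
    g (t + s) x = g t (g s x) := by
  have := ODE_solution_unique_univ (v := fun _ => v) (s := fun _ => univ) (K := K) (t₀ := 0)
    (f := fun t => g (t + s) x) (g := fun t => g t (g s x)) (fun _ => hK.lipschitzOnWith)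
    (fun t => ⟨(hg x (t + s)).comp_add_const t s, trivial⟩) (fun t => ⟨hg _ t, trivial⟩)
    (by simp [h0])
  exact congrFun this t

lemma contDiffAt_small {m : ℕ} (hm : 1 ≤ m) (hv : ContDiff ℝ m v) (hK : LipschitzWith K v)
    (h0 : ∀ x, g 0 x = x) (hg : ∀ x t, HasDerivAt (fun s => g s x) (v (g t x)) t)
    (p₀ : ℝ × E) (hp₀ : |p₀.1| * K < 1) :
    ContDiffAt ℝ m (fun p : ℝ × E => g p.1 p.2) p₀ := by
  have hgc : ∀ x, Continuous fun s => g s x := fun x =>
    continuous_iff_continuousAt.2 fun t => (hg x t).continuousAt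
  set V : C(E, E) := ⟨v, hv.continuous⟩ with hV
  have hm0 : (m : WithTop ℕ∞) ≠ 0 := by exact_mod_cast (by omega : m ≠ 0)
  set V' : C(E, E →L[ℝ] E) := ⟨fderiv ℝ v, hv.continuous_fderiv hm0⟩ with hV'
  set Γ : ℝ × E → C(Icc (0 : ℝ) 1, E) := fun p =>
    ⟨fun s => g (p.1 * s) p.2, (hgc p.2).comp (by fun_prop)⟩ with hΓ
  set f : (ℝ × E) × C(Icc (0 : ℝ) 1, E) → C(Icc (0 : ℝ) 1, E) := fun u =>
    u.2 - ContinuousLinearMap.const ℝ (Icc (0 : ℝ) 1) u.1.2 - u.1.1 • volt E (V.comp u.2) with hf
  have hΓ0 : ∀ p, f (p, Γ p) = 0 := by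
    intro p
    ext s
    have h1 : ∀ r : ℝ, HasDerivAt (fun r => g (p.1 * r) p.2) (p.1 • v (g (p.1 * r) p.2)) r :=
      fun r => by
        have := (hg p.2 (p.1 * r)).scomp r ((hasDerivAt_id r).const_mul p.1)
        simpa [Function.comp_def] using this
    have h2 := intervalIntegral.integral_eq_sub_of_hasDerivAt (a := 0) (b := s)
      (fun r _ => h1 r) (Continuous.intervalIntegrable
        ((hv.continuous.comp ((hgc p.2).comp (by fun_prop))).const_smul p.1) _ _)
    have h3 : volt E (V.comp (Γ p)) s = ∫ r in (0 : ℝ)..s, v (g (p.1 * r) p.2) := by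
      rw [volt_apply]
      refine intervalIntegral.integral_congr fun r hr => ?_
      rw [uIcc_of_le s.2.1] at hr
      simp [hV, hΓ, projIcc_of_mem zero_le_one ⟨hr.1, hr.2.trans s.2.2⟩]
    rw [intervalIntegral.integral_smul, ← h3] at h2
    simp only [hf, ContinuousMap.sub_apply, ContinuousMap.smul_apply, h2]
    simp [hΓ, h0]
  have huniq : ∀ (p : ℝ × E) γ η, |p.1| * (K : ℝ) < 1 → f (p, γ) = 0 → f (p, η) = 0 → γ = η := by
    intro p γ η hp h1 h2
    have h3 : γ - η = p.1 • volt E (V.comp γ - V.comp η) := by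
      have : f (p, γ) - f (p, η) = 0 := by rw [h1, h2, sub_self]
      simp only [hf] at this
      rw [map_sub, smul_sub, ← sub_eq_zero, ← this]; abel
    have h4 : ‖V.comp γ - V.comp η‖ ≤ K * ‖γ - η‖ := by
      rw [ContinuousMap.norm_le _ (by positivity)]
      intro s
      have := hK.norm_sub_le (γ s) (η s)
      exact this.trans (by gcongr; exact (γ - η).norm_coe_le_norm s)
    have h5 : ‖γ - η‖ ≤ |p.1| * K * ‖γ - η‖ := by
      calc ‖γ - η‖ = |p.1| * ‖volt E (V.comp γ - V.comp η)‖ := by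
            conv_lhs => rw [h3, norm_smul, Real.norm_eq_abs]
        _ ≤ |p.1| * (1 * (K * ‖γ - η‖)) := by
            gcongr
            exact (volt E).le_of_opNorm_le_of_le norm_volt_le h4
        _ = _ := by ring
    have h6 : ‖γ - η‖ ≤ 0 := by nlinarith [norm_nonneg (γ - η)]
    exact sub_eq_zero.1 (norm_le_zero_iff.1 h6)
  have hN : ContDiff ℝ m (fun γ : C(Icc (0 : ℝ) 1, E) => V.comp γ) := contDiff_nem m V hv
  have hfc : ContDiff ℝ m f :=
    (contDiff_snd.sub ((ContinuousLinearMap.const ℝ (Icc (0 : ℝ) 1)).contDiff.comp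
      contDiff_fst.snd)).sub (contDiff_fst.fst.smul ((volt E).contDiff.comp (hN.comp contDiff_snd)))
  set A := p₀.1 • (volt E).comp (appL _ E E (V'.comp (Γ p₀))) with hA
  have hAn : ‖A‖ < 1 := by
    refine lt_of_le_of_lt ?_ hp₀
    have b1 : ‖V'.comp (Γ p₀)‖ ≤ K :=
      (ContinuousMap.norm_le _ K.2).2 fun s => norm_fderiv_le_of_lipschitz ℝ hK
    refine ContinuousLinearMap.opNorm_le_bound _ (by positivity) fun η => ?_
    have b2 := (appL _ E E (V'.comp (Γ p₀))).le_of_opNorm_le ((norm_appL_le _).trans b1) η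
    have b3 := (volt E).le_of_opNorm_le_of_le norm_volt_le b2
    show ‖p₀.1 • volt E (appL _ E E (V'.comp (Γ p₀)) η)‖ ≤ _
    rw [norm_smul, Real.norm_eq_abs, mul_assoc]
    gcongr
    simpa using b3
  have hpart : fderiv ℝ f (p₀, Γ p₀) ∘L ContinuousLinearMap.inr ℝ (ℝ × E) _ = 1 - A := by
    have a1 : HasFDerivAt (fun γ => f (p₀, γ))
        (fderiv ℝ f (p₀, Γ p₀) ∘L ContinuousLinearMap.inr ℝ (ℝ × E) _) (Γ p₀) :=
      ((hfc.differentiable hm0) (p₀, Γ p₀)).hasFDerivAt.comp (Γ p₀)
        (hasFDerivAt_prodMk_right p₀ (Γ p₀))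
    have a2 := hasFDerivAt_nem V V' (fun x => ((hv.differentiable hm0) x).hasFDerivAt) (Γ p₀)
    have a3 := ((hasFDerivAt_id (𝕜 := ℝ) (Γ p₀)).sub_const
      (ContinuousLinearMap.const ℝ (Icc (0 : ℝ) 1) p₀.2)).sub
        (((volt E).hasFDerivAt.comp (Γ p₀) a2).const_smul p₀.1)
    exact a1.unique a3
  have hinv : (fderiv ℝ f (p₀, Γ p₀) ∘L ContinuousLinearMap.inr ℝ (ℝ × E) _).IsInvertible := by
    rw [hpart]
    exact ⟨ContinuousLinearEquiv.unitsEquiv ℝ _ (Units.oneSub A hAn), rfl⟩
  have c1 := hfc.contDiffAt.contDiffAt_implicitFunction hm0 hinv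
  have c2 := hfc.contDiffAt.eventually_apply_implicitFunction hm0 hinv
  have c3 : ∀ᶠ p : ℝ × E in 𝓝 p₀, |p.1| * K < 1 :=
    (by fun_prop : Continuous fun p : ℝ × E => |p.1| * K).continuousAt.eventually_lt
      continuousAt_const hp₀
  have c4 : ContDiffAt ℝ m Γ p₀ := by
    refine c1.congr_of_eventuallyEq ?_
    filter_upwards [c2, c3] with p h1 h2
    exact huniq p _ _ h2 (hΓ0 p) (h1.trans (hΓ0 p₀))
  have c5 := (ContinuousMap.evalCLM ℝ (⟨1, by simp⟩ : Icc (0 : ℝ) 1)).contDiff.contDiffAt.comp p₀ c4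
  refine c5.congr_of_eventuallyEq (Eventually.of_forall fun p => ?_)
  simp [hΓ]

theorem contDiff_flow {m : ℕ} (hm : 1 ≤ m) (hv : ContDiff ℝ m v) (hK : LipschitzWith K v)
    (h0 : ∀ x, g 0 x = x) (hg : ∀ x t, HasDerivAt (fun s => g s x) (v (g t x)) t) :
    ContDiff ℝ m (fun p : ℝ × E => g p.1 p.2) := by
  have key : ∀ n : ℕ, ∀ p : ℝ × E, |p.1| * K < 2 ^ n →
      ContDiffAt ℝ m (fun p : ℝ × E => g p.1 p.2) p := by
    intro n
    induction n with
    | zero => exact fun p hp => contDiffAt_small hm hv hK h0 hg p (by simpa using hp)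
    | succ n ih =>
      intro p hp
      have hp' : |p.1 / 2| * K < 2 ^ n := by
        rw [abs_div, abs_two]; rw [pow_succ] at hp; linarith
      have a0 : ContDiffAt ℝ m (fun q : ℝ × E => q.1 / 2) p := contDiffAt_fst.div_const 2
      have a1' := (ih (p.1 / 2, p.2) hp').comp p (a0.prodMk contDiffAt_snd)
      have a1 : ContDiffAt ℝ m (fun q : ℝ × E => g (q.1 / 2) q.2) p := a1'
      have a2 := (ih (p.1 / 2, g (p.1 / 2) p.2) hp').comp p (a0.prodMk a1)
      refine a2.congr_of_eventuallyEq (Eventually.of_forall fun q => ?_)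
      simp only [Function.comp]
      rw [← flow_add hK h0 hg, add_halves]
  refine contDiff_iff_contDiffAt.2 fun p => ?_
  obtain ⟨n, hn⟩ := pow_unbounded_of_one_lt (|p.1| * K) (one_lt_two (α := ℝ))
  exact key n p hn

/-- The variational equation. -/
theorem variational (hv : ContDiff ℝ 1 v) (hK : LipschitzWith K v)
    (h0 : ∀ x, g 0 x = x) (hg : ∀ x t, HasDerivAt (fun s => g s x) (v (g t x)) t) (x : E) (t : ℝ) :
    HasDerivAt (fun s => fderiv ℝ (g s) x) (fderiv ℝ v (g t x) ∘L fderiv ℝ (g t) x) t := by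
  have hG : ContDiff ℝ 1 (fun p : ℝ × E => g p.1 p.2) :=
    contDiff_flow (m := 1) le_rfl hv hK h0 hg
  have hgd : ∀ s y, HasFDerivAt (g s)
      (fderiv ℝ (fun p : ℝ × E => g p.1 p.2) (s, y) ∘L ContinuousLinearMap.inr ℝ ℝ E) y :=
    fun s y => ((hG.differentiable one_ne_zero) (s, y)).hasFDerivAt.comp y
      (hasFDerivAt_prodMk_right s y)
  have hM : Continuous fun p : ℝ × E => fderiv ℝ (g p.1) p.2 := by
    simp only [fun s y => (hgd s y).fderiv]
    exact (hG.continuous_fderiv one_ne_zero).clm_comp continuous_const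
  have hF : Continuous fun p : ℝ × E => fderiv ℝ v (g p.1 p.2) ∘L fderiv ℝ (g p.1) p.2 :=
    ((hv.continuous_fderiv one_ne_zero).comp hG.continuous).clm_comp hM
  have hint : ∀ s, fderiv ℝ (g s) x =
      1 + ∫ r in (0 : ℝ)..s, fderiv ℝ v (g r x) ∘L fderiv ℝ (g r) x := by
    intro s
    have e : g s = fun y => y + ∫ r in (0 : ℝ)..s, v (g r y) := by
      funext y
      rw [intervalIntegral.integral_eq_sub_of_hasDerivAt (fun r _ => hg y r)
        (Continuous.intervalIntegrable (hv.continuous.comp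
          (hG.continuous.comp (by fun_prop : Continuous fun r : ℝ => (r, y)))) _ _), h0]
      abel
    have hb : ∃ B : ℝ, ∀ r : ℝ, r ∈ uIoc 0 s → ∀ y : E,
        ‖fderiv ℝ v (g r y) ∘L fderiv ℝ (g r) y‖ ≤ B := by
      refine ⟨K * Real.exp (K * |s|), fun r hr y => ?_⟩
      refine (ContinuousLinearMap.opNorm_comp_le _ _).trans ?_
      have a1 : ‖fderiv ℝ v (g r y)‖ ≤ K := norm_fderiv_le_of_lipschitz ℝ hK
      have hrs : |r| ≤ |s| := by
        have := abs_sub_left_of_mem_uIcc (uIoc_subset_uIcc hr)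
        simpa using this
      have a2 : ‖fderiv ℝ (g r) y‖ ≤ Real.exp (K * |s|) := by
        refine norm_fderiv_le_of_lip' ℝ (Real.exp_pos _).le (Eventually.of_forall fun z => ?_)
        rcases le_total 0 r with hr0 | hr0
        · have := dist_le_of_trajectories_ODE (v := fun _ => v) (K := K) (a := 0) (b := r)
            (f := fun s => g s z) (g := fun s => g s y) (δ := dist z y) (fun _ => hK)
            (fun t _ => (hg z t).continuousAt.continuousWithinAt)
            (fun t _ => (hg z t).hasDerivWithinAt)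
            (fun t _ => (hg y t).continuousAt.continuousWithinAt)
            (fun t _ => (hg y t).hasDerivWithinAt) (by simp [h0]) r ⟨hr0, le_rfl⟩
          rw [dist_eq_norm, dist_eq_norm, mul_comm] at this
          refine this.trans ?_
          gcongr
          rw [sub_zero]; exact (le_abs_self r).trans hrs
        · have hn : ∀ w t, HasDerivAt (fun s => g (-s) w) (-v (g (-t) w)) t := fun w t => by
            have := (hg w (-t)).scomp t (hasDerivAt_neg t)
            simpa [Function.comp_def] using this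
          have := dist_le_of_trajectories_ODE (v := fun _ w => -v w) (K := K) (a := 0) (b := -r)
            (f := fun s => g (-s) z) (g := fun s => g (-s) y) (δ := dist z y) (fun _ => hK.neg)
            (fun t _ => (hn z t).continuousAt.continuousWithinAt)
            (fun t _ => (hn z t).hasDerivWithinAt)
            (fun t _ => (hn y t).continuousAt.continuousWithinAt)
            (fun t _ => (hn y t).hasDerivWithinAt) (by simp [h0]) (-r) ⟨by linarith, le_rfl⟩
          rw [dist_eq_norm, dist_eq_norm, mul_comm, neg_neg] at this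
          refine this.trans ?_
          gcongr
          rw [sub_zero]; exact (neg_le_abs r).trans hrs
      gcongr
    obtain ⟨B, hB⟩ := hb
    have key := intervalIntegral.hasFDerivAt_integral_of_dominated_of_fderiv_le
      (μ := volume) (a := 0) (b := s) (F := fun y r => v (g r y))
      (F' := fun y r => fderiv ℝ v (g r y) ∘L fderiv ℝ (g r) y) (x₀ := x) (s := univ)
      (bound := fun _ => B) univ_mem
      (Eventually.of_forall fun y => (hv.continuous.comp
        (hG.continuous.comp (by fun_prop : Continuous fun r : ℝ => (r, y)))).aestronglyMeasurable)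
      (Continuous.intervalIntegrable (hv.continuous.comp
        (hG.continuous.comp (by fun_prop : Continuous fun r : ℝ => (r, x)))) _ _)
      (hF.comp (by fun_prop : Continuous fun r : ℝ => (r, x))).aestronglyMeasurable
      (Eventually.of_forall fun r hr y _ => hB r hr y)
      (continuous_const.intervalIntegrable _ _)
      (Eventually.of_forall fun r _ y _ =>
        ((hv.differentiable one_ne_zero) _).hasFDerivAt.comp y
          (hgd r y).differentiableAt.hasFDerivAt)
    have := ((hasFDerivAt_id x).add key).fderiv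
    rw [e]
    exact this
  have hc : Continuous fun r : ℝ => fderiv ℝ v (g r x) ∘L fderiv ℝ (g r) x :=
    hF.comp (by fun_prop : Continuous fun r : ℝ => (r, x))
  have := (hc.integral_hasStrictDerivAt 0 t).hasDerivAt.const_add 1
  exact this.congr_of_eventuallyEq (Eventually.of_forall hint)

end Flow

end Pool.Agent.MP_6357da_an.H67
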